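import Pool.Agent.H71.DF.Def

/-!
# [H71 DF BLK] dyadic blocks, 50-90 lines

Let `f : ℕ → ℝ` (a counting function) and `x` be given, with `f w ≤ f X + g X` whenever `w ≤ 2 X`, `X ≤ w` (`g X` = the number of objects with `m ∈ (X, 2X]`), `g X ≤ c X` for all `X` with `2X ≤ x + 1`, `x ≤ 2^I X`, and `f w ≤ 2 w` for all `w ≤ x`.
Then `f x ≤ c (x + I) + 2 (x/2^I + 1)`.
PROOF. `X_0 = x`, `X_{i+1} = (X_i + 1)/2` (natural division): `x/2^i ≤ X_i ≤ x/2^i + 1` (real division; `X_{i+1} ≤ (X_i + 1)/2 ≤ x/2^(i+1) + 1`). For `i < I`: `f X_i ≤ f X_{i+1} + g X_{i+1}` (`X_i ≤ 2 X_{i+1}`; `X_{i+1} ≤ X_i` if `X_i ≥ 1`, i.e. `x ≥ 1`), `2 X_{i+1} ≤ X_i + 1 ≤ x + 1`,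
`x ≤ 2^(i+1) X_{i+1} ≤ 2^I X_{i+1}`, so `g X_{i+1} ≤ c X_{i+1} ≤ c (x/2^(i+1) + 1)`. Sum: `f x ≤ f X_I + c ∑_{i < I} (x/2^(i+1) + 1) ≤ 2 (x/2^I + 1) + c (x + I)`.
-/

set_option autoImplicit false

namespace H71.DF

open Finset

theorem blk (f g : ℕ → ℝ) (c : ℝ) (hc : 0 ≤ c) (x I : ℕ) (hx : 1 ≤ x) (hfg : ∀ w X : ℕ, X ≤ w → w ≤ 2 * X → w ≤ x → f w ≤ f X + g X)
    (hg : ∀ X : ℕ, 2 * X ≤ x + 1 → (x : ℝ) ≤ 2 ^ I * X → g X ≤ c * X) (hf : ∀ w : ℕ, w ≤ x → f w ≤ 2 * w) :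
    f x ≤ c * (x + I) + 2 * (x / 2 ^ I + 1) := by
  obtain ⟨X, hX0, hXs⟩ : ∃ X : ℕ → ℕ, X 0 = x ∧ ∀ i, X (i + 1) = (X i + 1) / 2 :=
    ⟨fun i => Nat.rec x (fun _ y => (y + 1) / 2) i, rfl, fun _ => rfl⟩
  have h1 : ∀ i, 1 ≤ X i := by
    intro i
    induction i with
    | zero => rw [hX0]; exact hx
    | succ i ih => rw [hXs]; omega
  have h2 : ∀ i, X (i + 1) ≤ X i := by
    intro i
    rw [hXs]
    have := h1 i
    omega
  have h3 : ∀ i, X i ≤ x := by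
    intro i
    induction i with
    | zero => rw [hX0]
    | succ i ih => exact (h2 i).trans ih
  have h4 : ∀ i, X i ≤ 2 * X (i + 1) := by
    intro i
    rw [hXs]
    omega
  have h5 : ∀ i, (x : ℝ) ≤ 2 ^ i * X i := by
    intro i
    induction i with
    | zero => rw [hX0]; simp
    | succ i ih =>
      have h6 : (X i : ℝ) ≤ 2 * X (i + 1) := by exact_mod_cast h4 i
      calc (x : ℝ) ≤ 2 ^ i * X i := ih
        _ ≤ 2 ^ i * (2 * X (i + 1)) := by gcongr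
        _ = 2 ^ (i + 1) * X (i + 1) := by ring
  have h6 : ∀ i, (X i : ℝ) ≤ x / 2 ^ i + 1 := by
    intro i
    induction i with
    | zero => rw [hX0]; simp
    | succ i ih =>
      have h7 : 2 * X (i + 1) ≤ X i + 1 := by
        rw [hXs]
        omega
      have h8 : 2 * (X (i + 1) : ℝ) ≤ X i + 1 := by exact_mod_cast h7
      have h9 : (x : ℝ) / 2 ^ (i + 1) = x / 2 ^ i / 2 := by
        rw [pow_succ, div_div]
      rw [h9]
      linarith
  have key : ∀ i, i ≤ I → f x ≤ f (X i) + c * (x * (1 - 1 / 2 ^ i) + i) := by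
    intro i
    induction i with
    | zero =>
      intro _
      rw [hX0]
      simp
    | succ i ih =>
      intro hi
      have h7 := ih (by omega)
      have h8 := hfg (X i) (X (i + 1)) (h2 i) (h4 i) (h3 i)
      have h9 : (x : ℝ) ≤ 2 ^ I * X (i + 1) := by
        refine (h5 (i + 1)).trans ?_
        have h10 : (2 : ℝ) ^ (i + 1) ≤ 2 ^ I := pow_le_pow_right₀ (by norm_num) hi
        gcongr
      have h10 : 2 * X (i + 1) ≤ x + 1 := by
        have := h3 i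
        rw [hXs]
        omega
      have h11 := hg (X (i + 1)) h10 h9
      have h12 : c * (X (i + 1) : ℝ) ≤ c * (x / 2 ^ (i + 1) + 1) :=
        mul_le_mul_of_nonneg_left (h6 (i + 1)) hc
      have h13 : c * (x * (1 - 1 / 2 ^ (i + 1)) + ((i + 1 : ℕ) : ℝ)) =
          c * (x * (1 - 1 / 2 ^ i) + i) + c * (x / 2 ^ (i + 1) + 1) := by
        push_cast
        rw [pow_succ]
        field_simp
        ring
      rw [h13]
      linarith
  have h7 := key I le_rfl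
  have h8 := hf (X I) (h3 I)
  have h9 := h6 I
  have h10 : c * (x * (1 - 1 / 2 ^ I) + (I : ℝ)) ≤ c * (x + I) := by
    apply mul_le_mul_of_nonneg_left _ hc
    have h11 : (0 : ℝ) ≤ x * (1 / 2 ^ I) := by positivity
    linarith
  linarith

end H71.DF
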