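import Pool.Agent.H71.DF.Def
import Pool.Agent.H92.LP.Cheb

/-!
# [H71 DF SPL] the primes `> x` of one value, 60-110 lines

Let `F ≠ 0`, `F < (x+1)³`. `log F = ∑_{p ≤ x} v_p(F) log p + ∑_{p ∣ F, p > x} v_p(F) log p` (`Nat.factorization_prod_pow_eq_self`, `Real.log_prod`; compare `Pool.Agent.H92.LP.split`). Let `W = ∑_{p ∣ F, p > x} v_p(F)`: `(x+1)^W ≤ F < (x+1)³`, so `W ≤ 2`.
`W ≤ #{p ∣ F, p > x} + (1 if p² ∣ F for a prime p > x)`: if `v_p = 1` for all these `p` then `W = #`; otherwise some `v_p ≥ 2`, so `# ≥ 1` and the right side is `≥ 2 ≥ W`. If all primes of `F` are `≤ y` (`y ≥ 1`) the second sum is `≤ W log y`. In any case the second sum is `≤ log F ≤ 3 log (x+1)`.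
-/

set_option autoImplicit false

namespace H71.DF

open Finset

open Classical in
theorem spl (F x : ℕ) (hF : F ≠ 0) (hx : F < (x + 1) ^ 3) :
    (Real.log F ≤ (∑ p ∈ Nat.primesLE x, (F.factorization p : ℝ) * Real.log p) + 3 * Real.log ((x : ℝ) + 1)) ∧
    ∀ y : ℝ, 1 ≤ y → (∀ p : ℕ, p.Prime → p ∣ F → (p : ℝ) ≤ y) →
      Real.log F ≤ (∑ p ∈ Nat.primesLE x, (F.factorization p : ℝ) * Real.log p) +
        Real.log y * ((F.primeFactors.filter fun p => x < p).card + (if ∃ p : ℕ, p.Prime ∧ x < p ∧ p ^ 2 ∣ F then 1 else 0)) := by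
  have hF0 : (0 : ℝ) < F := by
    have := Nat.pos_of_ne_zero hF
    exact_mod_cast this
  have hA0 : 0 ≤ ∑ p ∈ Nat.primesLE x, (F.factorization p : ℝ) * Real.log p := by
    refine sum_nonneg fun p hp => mul_nonneg (Nat.cast_nonneg _) (Real.log_natCast_nonneg p)
  constructor
  · have h1 : (F : ℝ) ≤ ((x : ℝ) + 1) ^ 3 := by exact_mod_cast hx.le
    have h2 := Real.log_le_log hF0 h1
    rw [Real.log_pow] at h2
    push_cast at h2
    linarith
  · intro y hy hpy
    have hly : 0 ≤ Real.log y := Real.log_nonneg hy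
    obtain ⟨S, hS⟩ : ∃ S : Finset ℕ, S = F.primeFactors.filter fun p => x < p := ⟨_, rfl⟩
    have hlog : Real.log F = (∑ p ∈ Nat.primesLE x, (F.factorization p : ℝ) * Real.log p) +
        ∑ p ∈ S, (F.factorization p : ℝ) * Real.log p := by
      have h1 : Real.log F = ∑ p ∈ F.primeFactors, (F.factorization p : ℝ) * Real.log p := by
        have h2 : (F : ℝ) = ∏ p ∈ F.primeFactors, (p : ℝ) ^ F.factorization p := by
          exact_mod_cast (Nat.prod_factorization_pow_eq_self hF).symm
        rw [h2, Real.log_prod (fun p hp => by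
          have := (Nat.prime_of_mem_primeFactors hp).pos
          positivity)]
        exact sum_congr rfl fun p _ => Real.log_pow _ _
      rw [h1, ← sum_filter_add_sum_filter_not F.primeFactors (fun p => x < p), add_comm, hS]
      congr 1
      refine sum_subset (fun p hp => ?_) fun p hp hnp => ?_
      · rw [mem_filter] at hp
        rw [Nat.mem_primesLE]
        exact ⟨by omega, Nat.prime_of_mem_primeFactors hp.1⟩
      · rw [Nat.mem_primesLE] at hp
        rw [mem_filter] at hnp
        have h2 : p ∉ F.primeFactors := fun h => hnp ⟨h, by omega⟩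
        have h3 : F.factorization p = 0 := by
          rw [← Finsupp.notMem_support_iff, Nat.support_factorization]
          exact h2
        rw [h3, Nat.cast_zero, zero_mul]
    have hW1 : (x + 1) ^ (∑ p ∈ S, F.factorization p) ≤ F := by
      calc (x + 1) ^ (∑ p ∈ S, F.factorization p) ≤ ∏ p ∈ S, p ^ F.factorization p := by
            rw [← prod_pow_eq_pow_sum]
            refine prod_le_prod' fun p hp => ?_
            rw [hS, mem_filter] at hp
            exact Nat.pow_le_pow_left (by omega) _
        _ ≤ ∏ p ∈ F.primeFactors, p ^ F.factorization p := by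
            refine prod_le_prod_of_subset_of_one_le' (by rw [hS]; exact filter_subset _ _) fun p hp _ => ?_
            exact Nat.one_le_pow _ _ (Nat.prime_of_mem_primeFactors hp).pos
        _ = F := Nat.prod_factorization_pow_eq_self hF
    have hW3 : ∑ p ∈ S, F.factorization p < 3 := by
      by_contra h
      push Not at h
      have h2 : (x + 1) ^ 3 ≤ (x + 1) ^ (∑ p ∈ S, F.factorization p) := Nat.pow_le_pow_right (by omega) h
      omega
    have hW : ((∑ p ∈ S, F.factorization p : ℕ) : ℝ) ≤ S.card + (if ∃ p : ℕ, p.Prime ∧ x < p ∧ p ^ 2 ∣ F then 1 else 0) := by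
      split_ifs with h
      · obtain ⟨p, hp, hxp, hpF⟩ := h
        have h1 : p ∈ S := by
          rw [hS, mem_filter, Nat.mem_primeFactors]
          exact ⟨⟨hp, (dvd_pow_self p two_ne_zero).trans hpF, hF⟩, hxp⟩
        have h2 : 1 ≤ S.card := card_pos.2 ⟨p, h1⟩
        have h3 : ∑ p ∈ S, F.factorization p ≤ S.card + 1 := by omega
        exact_mod_cast h3
      · rw [add_zero]
        refine Nat.cast_le.2 ?_
        rw [card_eq_sum_ones]
        refine sum_le_sum fun p hp => ?_
        by_contra h1
        push Not at h1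
        rw [hS, mem_filter] at hp
        have hpp := Nat.prime_of_mem_primeFactors hp.1
        exact h ⟨p, hpp, hp.2, (hpp.pow_dvd_iff_le_factorization hF).2 h1⟩
    rw [hlog, ← hS]
    refine add_le_add le_rfl ?_
    calc ∑ p ∈ S, (F.factorization p : ℝ) * Real.log p ≤ ∑ p ∈ S, (F.factorization p : ℝ) * Real.log y := by
          refine sum_le_sum fun p hp => mul_le_mul_of_nonneg_left ?_ (Nat.cast_nonneg _)
          rw [hS, mem_filter] at hp
          have hpp := Nat.prime_of_mem_primeFactors hp.1
          exact Real.log_le_log (by exact_mod_cast hpp.pos) (hpy p hpp (Nat.dvd_of_mem_primeFactors hp.1))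
      _ = Real.log y * ((∑ p ∈ S, F.factorization p : ℕ) : ℝ) := by
          rw [← sum_mul, mul_comm]
          push_cast
          rfl
      _ ≤ _ := mul_le_mul_of_nonneg_left hW hly

end H71.DF
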