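import Pool.Agent.H71.DF.Sqd
import Pool.Agent.H71.DF.Spl
import Pool.Agent.H92.LP.Glue

/-!
# [H71 DF CHB] RESULT of chapter F: Chebyshev's argument, 100-180 lines

`0 < d ≤ 1/500`, `y = x^(1+d)`, `E = {m ∈ Icc 1 x : ∃ p prime, y < p, p ∣ m³ + k}`, `FF k m = |m³ + k|` (`H92/LP`). CLAIM `(2/3 - 80 d) x ≤ #E` for `x ≥ x0(k, d)`. Let `η = d/10`.
Lower bound `∑_{m ≤ x} log FF ≥ 3 x log x - C x` (`H92.LP.sum_log_low`); `∑_{m ≤ x} ∑_{p ≤ x} v_p log p ≤ (1 + η) x log x` (`H92.LP.sumA` with `H92.LP.mer_rk`). `FF k m ≤ x³ + |k| < (x+1)³` (`H92.LP.FF_le`, `x ≥ |k|`), `FF ≠ 0` (`FF_ne`).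
`spl` for every `m`: for `m ∉ E` all primes of `FF k m` are `≤ y`: the second form; for `m ∈ E` the first. The sum over `m` of `#{p ∣ FF k m, x < p}` (`m ∉ E`, so `p ≤ y`) is `≤ Np k x x y ≤ (224 d + η) x` (`prs`), the sum of the last term is `≤ Nq k x x ≤ η x` (`sqd`) (`FF_dvd`; `p² ∣ FF k m ↔ (p:ℤ)² ∣ m³ + k`).
So `3 x log x - C x ≤ (1+η) x log x + (1+d) log x (224 d + 2η) x + #E · 3 log (x+1)`. `C ≤ η log x`, `3 log (x+1) ≤ (3 + η) log x` for `x` large. Divide by `x log x`: `#E/x (3 + η) ≥ 2 - 2η - 1.002 (224 d + 2η) ≥ 2 - 224.5 d - 4.1 η ≥ 2 - 225 d`,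
and `(2 - 225 d)/(3 + η) ≥ (2/3 - 75 d)(1 - η/3) ≥ 2/3 - 80 d` (`η = d/10`, `2/3 · η/3 ≤ d`; `2 - 225 d > 0`).
-/

set_option autoImplicit false

namespace H71.DF

open Finset H96.DR H23.LP

private theorem chb_np (k : ℤ) (x : ℕ) (y : ℝ) (D : Finset ℕ) (hD : D ⊆ Icc 1 x)
    (hy : ∀ m ∈ D, ∀ p : ℕ, p.Prime → p ∣ Pool.Agent.H92.LP.FF k m → (p : ℝ) ≤ y) :
    ∑ m ∈ D, ((Pool.Agent.H92.LP.FF k m).primeFactors.filter fun p => x < p).card ≤ Np k x x y := by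
  classical
  unfold Np
  obtain ⟨S, hS⟩ : ∃ S : Finset (ℕ × ℕ), S = ((Icc 1 x) ×ˢ range (⌊y⌋₊ + 1)).filter fun z =>
    z.2.Prime ∧ (x : ℝ) < z.2 ∧ (z.2 : ℝ) ≤ y ∧ (z.2 : ℤ) ∣ (z.1 : ℤ) ^ 3 + k := ⟨_, rfl⟩
  rw [← hS]
  have h1 : ∀ z ∈ S, z.1 ∈ Icc 1 x := by
    intro z hz
    rw [hS, mem_filter, mem_product] at hz
    exact hz.1.1
  rw [card_eq_sum_card_fiberwise h1]
  refine (sum_le_sum fun m hm => ?_).trans (sum_le_sum_of_subset hD)
  refine card_le_card_of_injOn (fun p => (m, p)) ?_ ?_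
  · intro p hp
    rw [mem_coe, mem_filter] at hp
    have hpp := Nat.prime_of_mem_primeFactors hp.1
    have hpd := Nat.dvd_of_mem_primeFactors hp.1
    have hpy := hy m hm p hpp hpd
    have hpf := Nat.le_floor hpy
    rw [mem_coe, mem_filter, hS, mem_filter, mem_product, mem_range]
    refine ⟨⟨⟨hD hm, ?_⟩, hpp, ?_, hpy, Pool.Agent.H92.LP.FF_dvd.1 hpd⟩, rfl⟩
    · change p < ⌊y⌋₊ + 1
      omega
    · exact_mod_cast hp.2
  · intro p _ q _ h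
    exact (Prod.mk.inj h).2

open Classical in
theorem chb (k : ℤ) (hk : ∀ t : ℤ, t ^ 3 ≠ k) (hW : Window k) (hS : SqDiv k) (d : ℝ) (hd : 0 < d) (hd1 : d ≤ 1 / 500) :
    ∃ x0 : ℕ, ∀ x : ℕ, x0 ≤ x → (2 / 3 - 80 * d) * x ≤
      (((Icc 1 x).filter fun m : ℕ => ∃ p : ℕ, p.Prime ∧ (x : ℝ) ^ (1 + d) < p ∧ (p : ℤ) ∣ (m : ℤ) ^ 3 + k).card : ℝ) := by
  obtain ⟨η, hη⟩ : ∃ η : ℝ, η = d / 10 := ⟨_, rfl⟩
  have hη0 : 0 < η := by rw [hη]; positivity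
  obtain ⟨C, hC0, hC⟩ := Pool.Agent.H92.LP.sum_log_low hk
  obtain ⟨x1, hx1⟩ := prs k hk hW η hη0
  obtain ⟨x2, hx2⟩ := sqd k hk hW hS η hη0
  obtain ⟨x3, hx3⟩ := Filter.eventually_atTop.1
    (Pool.Agent.H92.LP.sumA hk (Pool.Agent.H92.LP.mer_rk hk) η hη0)
  have hlogt : Filter.Tendsto (fun x : ℕ => Real.log x) Filter.atTop Filter.atTop :=
    Real.tendsto_log_atTop.comp tendsto_natCast_atTop_atTop
  obtain ⟨x4, hx4⟩ := Filter.eventually_atTop.1 (hlogt.eventually_ge_atTop (max (C / η) (3 * Real.log 2 / η)))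
  refine ⟨max (max x1 x2) (max (max x3 x4) (max k.natAbs 2)), fun x hx => ?_⟩
  simp only [max_le_iff] at hx
  obtain ⟨⟨g1, g2⟩, ⟨g3, g4⟩, g5, g6⟩ := hx
  have hP := hx1 x g1 d hd hd1
  have hQ := hx2 x g2
  have hA := hx3 x g3
  have hl := hx4 x g4
  have hlC : C ≤ η * Real.log x := by
    have h1 := (le_max_left _ _).trans hl
    rw [div_le_iff₀ hη0] at h1
    linarith
  have hl2 : 3 * Real.log 2 ≤ η * Real.log x := by
    have h1 := (le_max_right _ _).trans hl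
    rw [div_le_iff₀ hη0] at h1
    linarith
  have hxr : (2 : ℝ) ≤ x := by exact_mod_cast g6
  have hx0 : (0 : ℝ) < x := by linarith
  have hl0 : 0 < Real.log x := Real.log_pos (by linarith)
  have hl1 : 3 * Real.log ((x : ℝ) + 1) ≤ (3 + η) * Real.log x := by
    have h1 : Real.log ((x : ℝ) + 1) ≤ Real.log (2 * x) := Real.log_le_log (by linarith) (by linarith)
    rw [Real.log_mul (by norm_num) (by linarith)] at h1
    linarith
  obtain ⟨y, hy⟩ : ∃ y : ℝ, y = (x : ℝ) ^ (1 + d) := ⟨_, rfl⟩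
  have hy1 : 1 ≤ y := by
    rw [hy]
    exact Real.one_le_rpow (by linarith) (by linarith)
  have hly : Real.log y = (1 + d) * Real.log x := by
    rw [hy, Real.log_rpow hx0]
  rw [← hy] at hP ⊢
  obtain ⟨E, hE⟩ : ∃ E : Finset ℕ, E = (Icc 1 x).filter fun m : ℕ => ∃ p : ℕ, p.Prime ∧ y < p ∧
    (p : ℤ) ∣ (m : ℤ) ^ 3 + k := ⟨_, rfl⟩
  rw [← hE]
  have hEs : E ⊆ Icc 1 x := by
    rw [hE]
    exact filter_subset _ _
  have hFx : ∀ m ∈ Icc 1 x, Pool.Agent.H92.LP.FF k m < (x + 1) ^ 3 := by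
    intro m hm
    rw [mem_Icc] at hm
    refine (Pool.Agent.H92.LP.FF_le k hm.2).trans_lt ?_
    have : (x + 1) ^ 3 = x ^ 3 + (3 * x ^ 2 + 3 * x + 1) := by ring
    nlinarith
  have hpy : ∀ m ∈ Icc 1 x \ E, ∀ p : ℕ, p.Prime → p ∣ Pool.Agent.H92.LP.FF k m → (p : ℝ) ≤ y := by
    intro m hm p hp hpd
    rw [mem_sdiff] at hm
    by_contra hlt
    push Not at hlt
    apply hm.2
    rw [hE, mem_filter]
    exact ⟨hm.1, p, hp, hlt, Pool.Agent.H92.LP.FF_dvd.1 hpd⟩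
  have hlx1 : 0 ≤ 3 * Real.log ((x : ℝ) + 1) := by
    have := Real.log_nonneg (show (1 : ℝ) ≤ (x : ℝ) + 1 by linarith)
    linarith
  have hly0 : 0 ≤ Real.log y := Real.log_nonneg hy1
  have hsumE : ∑ m ∈ E, Real.log (Pool.Agent.H92.LP.FF k m) ≤
      (∑ m ∈ E, ∑ p ∈ Nat.primesLE x, ((Pool.Agent.H92.LP.FF k m).factorization p : ℝ) * Real.log p) +
        E.card * (3 * Real.log ((x : ℝ) + 1)) := by
    rw [← nsmul_eq_mul, ← sum_const, ← sum_add_distrib]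
    exact sum_le_sum fun m hm => (spl _ x (Pool.Agent.H92.LP.FF_ne hk m) (hFx m (hEs hm))).1
  have hsumD : ∑ m ∈ Icc 1 x \ E, Real.log (Pool.Agent.H92.LP.FF k m) ≤
      (∑ m ∈ Icc 1 x \ E, ∑ p ∈ Nat.primesLE x,
        ((Pool.Agent.H92.LP.FF k m).factorization p : ℝ) * Real.log p) +
        Real.log y * ((∑ m ∈ Icc 1 x \ E,
          ((Pool.Agent.H92.LP.FF k m).primeFactors.filter fun p => x < p).card : ℕ) +
          ∑ m ∈ Icc 1 x \ E, (if ∃ p : ℕ, p.Prime ∧ x < p ∧ p ^ 2 ∣ Pool.Agent.H92.LP.FF k m then (1 : ℝ) else 0)) := by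
    push_cast
    rw [← sum_add_distrib, mul_sum, ← sum_add_distrib]
    refine sum_le_sum fun m hm => ?_
    have h1 := (spl _ x (Pool.Agent.H92.LP.FF_ne hk m) (hFx m (mem_sdiff.1 hm).1)).2 y hy1 (hpy m hm)
    convert h1 using 3
  have hNp : ((∑ m ∈ Icc 1 x \ E,
          ((Pool.Agent.H92.LP.FF k m).primeFactors.filter fun p => x < p).card : ℕ) : ℝ) ≤ (224 * d + η) * x := by
    refine le_trans ?_ hP
    exact_mod_cast chb_np k x y _ sdiff_subset hpy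
  have hNq : ∑ m ∈ Icc 1 x \ E, (if ∃ p : ℕ, p.Prime ∧ x < p ∧ p ^ 2 ∣ Pool.Agent.H92.LP.FF k m then (1 : ℝ) else 0) ≤
      η * x := by
    refine le_trans ?_ hQ
    rw [← sum_filter, sum_const, nsmul_eq_mul, mul_one]
    unfold Nq
    refine Nat.cast_le.2 (card_le_card ?_)
    intro m hm
    rw [mem_filter, mem_sdiff] at hm
    obtain ⟨⟨hm1, -⟩, p, hp, hxp, hpd⟩ := hm
    rw [mem_filter]
    refine ⟨hm1, p, hp, by exact_mod_cast hxp, ?_⟩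
    have h1 := Pool.Agent.H92.LP.FF_dvd.1 hpd
    push_cast at h1
    exact h1
  have hlow := hC x (by omega)
  rw [← sum_sdiff hEs] at hlow hA
  obtain ⟨T, hT⟩ : ∃ T : ℝ, T = x * Real.log x := ⟨_, rfl⟩
  have hT0 : 0 < T := by rw [hT]; positivity
  have hCT : C * x ≤ η * T := by
    rw [hT]
    nlinarith
  have hD2 : Real.log y * ((∑ m ∈ Icc 1 x \ E,
          ((Pool.Agent.H92.LP.FF k m).primeFactors.filter fun p => x < p).card : ℕ) +
          ∑ m ∈ Icc 1 x \ E, (if ∃ p : ℕ, p.Prime ∧ x < p ∧ p ^ 2 ∣ Pool.Agent.H92.LP.FF k m then (1 : ℝ) else 0)) ≤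
      (1 + d) * (224 * d + 2 * η) * T := by
    refine (mul_le_mul_of_nonneg_left (add_le_add hNp hNq) hly0).trans (le_of_eq ?_)
    rw [hly, hT]
    ring
  have hE2 : (E.card : ℝ) * (3 * Real.log ((x : ℝ) + 1)) ≤ E.card * ((3 + η) * Real.log x) :=
    mul_le_mul_of_nonneg_left hl1 (Nat.cast_nonneg _)
  rw [← hT] at hlow hA
  have hmain : (3 * T - η * T) - (1 + η) * T - (1 + d) * (224 * d + 2 * η) * T ≤ E.card * ((3 + η) * Real.log x) := by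
    linarith
  have hnum : (3 + η) * (2 / 3 - 80 * d) ≤ 3 - η - (1 + η) - (1 + d) * (224 * d + 2 * η) := by
    rw [hη]
    nlinarith
  have h1 : (3 + η) * (2 / 3 - 80 * d) * T ≤ E.card * ((3 + η) * Real.log x) := by
    refine (mul_le_mul_of_nonneg_right hnum hT0.le).trans ?_
    linarith
  have h2 : ((3 + η) * Real.log x) * ((2 / 3 - 80 * d) * x) ≤ ((3 + η) * Real.log x) * E.card := by
    rw [hT] at h1
    linarith
  exact le_of_mul_le_mul_left h2 (by positivity)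

end H71.DF
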