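import Pool.Agent.H71.DF.Def
import Pool.Agent.H23.LP.M1
import Pool.Agent.H23.LP.Nup

/-!
# [H71 DF RIN] the inner sum over the primes, 60-110 lines

`0 < U ≤ V`, `z ≥ z0(k, ε)`, `z ≤ V`, `s ≥ 1`. `∑_{p prime, p > z, U ≤ p s ≤ V} nu k p log p/p ≤ log (V/U) + ε log V`. Let `e = ε/4`, `z0 ≥` the `x0` of `mer1` for `e`, `z0 ≥ 3`, and `3 log t/t ≤ ε/2` for `t ≥ z0`.
If `V/s < z` the sum is empty and the right side is `≥ 0`. Otherwise let `w = max z (U/s) ≤ V/s`. All primes of the sum are `≥ w` and `≤ V/s`; a prime `p = w` contributes `≤ 3 log p/p ≤ ε/2` (`nu ≤ 3`: `H23.LP.nu_le`; `p > z ≥ z0`), the others `≤ S(V/s) - S(w)` with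
`S(t) = ∑_{p ≤ t} nu log p/p`, which is by `mer1` `≤ (1+e) log (V/s) - (1-e) log w = log (V/(s w)) + e (log (V/s) + log w) ≤ log (V/U) + 2 e log V` (`s w ≥ U`; `w ≤ V/s ≤ V`). Total `≤ log (V/U) + (ε/2) log V + ε/2 ≤ log (V/U) + ε log V` (`log V ≥ 1`).
-/

set_option autoImplicit false

namespace H71.DF

open Finset H96.DR H23.LP

private theorem mem_pr {z V : ℝ} {p : ℕ} : p ∈ pr z V ↔ p < ⌊V⌋₊ + 1 ∧ p.Prime ∧ z < p := by
  unfold pr
  rw [mem_filter, mem_range]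

private theorem log_small (ε t : ℝ) (hε : 0 < ε) (ht : 0 < t) (h : 144 / ε ^ 2 ≤ t) :
    3 * Real.log t / t ≤ ε / 2 := by
  obtain ⟨r, hr, hrt⟩ : ∃ r : ℝ, 0 < r ∧ r ^ 2 = t := ⟨Real.sqrt t, Real.sqrt_pos.2 ht, Real.sq_sqrt ht.le⟩
  have h1 : Real.log t ≤ 2 * r := by
    rw [← hrt, Real.log_pow]
    have h2 := Real.log_le_sub_one_of_pos hr
    push_cast
    linarith
  have h2 : 12 / ε ≤ r := by
    have h3 : (12 / ε) ^ 2 ≤ r ^ 2 := by
      rw [hrt, div_pow]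
      norm_num
      exact h
    exact (pow_le_pow_iff_left₀ (by positivity) hr.le two_ne_zero).1 h3
  rw [div_le_iff₀ hε] at h2
  have h5 : 6 * r ≤ ε / 2 * r ^ 2 := by nlinarith
  rw [hrt] at h5
  rw [div_le_iff₀ ht]
  linarith

open Classical in
theorem rin (k : ℤ) (hk : ∀ t : ℤ, t ^ 3 ≠ k) (ε : ℝ) (hε : 0 < ε) : ∃ z0 : ℝ, 3 ≤ z0 ∧ ∀ z U V : ℝ,
    z0 ≤ z → z ≤ V → 0 < U → U ≤ V → ∀ s : ℕ, 1 ≤ s →
    ∑ p ∈ (pr z V).filter (fun p : ℕ => U ≤ (p : ℝ) * s ∧ (p : ℝ) * s ≤ V), (nu k p : ℝ) * Real.log p / p ≤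
      Real.log (V / U) + ε * Real.log V := by
  obtain ⟨e, he⟩ : ∃ e : ℝ, e = ε / 4 := ⟨_, rfl⟩
  have he0 : 0 < e := by
    rw [he]
    positivity
  obtain ⟨x0, hx0⟩ := mer1 k hk e he0
  refine ⟨max 3 (max x0 (144 / ε ^ 2)), le_max_left _ _, ?_⟩
  intro z U V hz hzV hU hUV s hs
  have hz3 : 3 ≤ z := (le_max_left _ _).trans hz
  have hzx : x0 ≤ z := (le_max_left _ _).trans ((le_max_right _ _).trans hz)
  have hze : 144 / ε ^ 2 ≤ z := (le_max_right _ _).trans ((le_max_right _ _).trans hz)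
  have hz0 : 0 < z := by linarith
  have hV0 : 0 < V := by linarith
  have hs1 : (1 : ℝ) ≤ s := by exact_mod_cast hs
  have hs0 : (0 : ℝ) < s := by linarith
  have hlV : 1 ≤ Real.log V := by
    rw [Real.le_log_iff_exp_le hV0]
    have := Real.exp_one_lt_d9
    linarith
  have hVU : 0 ≤ Real.log (V / U) := Real.log_nonneg (by rw [le_div_iff₀ hU]; linarith)
  have hnn : ∀ p : ℕ, 0 ≤ (nu k p : ℝ) * Real.log p / p := fun p => by
    have := Real.log_natCast_nonneg p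
    positivity
  obtain ⟨T, hT⟩ : ∃ T, T = (pr z V).filter (fun p : ℕ => U ≤ (p : ℝ) * s ∧ (p : ℝ) * s ≤ V) := ⟨_, rfl⟩
  have hmT : ∀ p ∈ T, p.Prime ∧ z < p ∧ U / s ≤ p ∧ (p : ℝ) ≤ V / s := by
    intro p hp
    rw [hT] at hp
    obtain ⟨h1, h2, h3⟩ := mem_filter.1 hp
    obtain ⟨-, h4, h5⟩ := mem_pr.1 h1
    exact ⟨h4, h5, by rw [div_le_iff₀ hs0]; exact h2, by rw [le_div_iff₀ hs0]; exact h3⟩
  rw [← hT]
  rcases lt_or_ge (V / s) z with hlt | hge
  · have h1 : T = ∅ := by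
      rw [Finset.eq_empty_iff_forall_notMem]
      intro p hp
      obtain ⟨-, h2, -, h4⟩ := hmT p hp
      linarith
    rw [h1, Finset.sum_empty]
    nlinarith
  obtain ⟨y, hy⟩ : ∃ y : ℝ, y = V / s := ⟨_, rfl⟩
  obtain ⟨w, hw⟩ : ∃ w : ℝ, w = max z (U / s) := ⟨_, rfl⟩
  rw [← hy] at hge
  have hzw : z ≤ w := by rw [hw]; exact le_max_left _ _
  have hUw : U / s ≤ w := by rw [hw]; exact le_max_right _ _
  have hwy : w ≤ y := by
    rw [hw]
    refine max_le hge ?_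
    rw [hy]
    exact div_le_div_of_nonneg_right hUV hs0.le
  have hyV : y ≤ V := by
    rw [hy]
    exact div_le_self hV0.le hs1
  have hw0 : 0 < w := by linarith
  have hy0 : 0 < y := by linarith
  -- the prime `w`
  have h1 : ∑ p ∈ T.filter (fun p : ℕ => (p : ℝ) ≤ w), (nu k p : ℝ) * Real.log p / p ≤ ε / 2 := by
    have hcard : (T.filter (fun p : ℕ => (p : ℝ) ≤ w)).card ≤ 1 := by
      rw [Finset.card_le_one]
      have h2 : ∀ p ∈ T.filter (fun p : ℕ => (p : ℝ) ≤ w), (p : ℝ) = w := by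
        intro p hp
        obtain ⟨h3, h4⟩ := mem_filter.1 hp
        obtain ⟨-, h5, h6, -⟩ := hmT p h3
        refine le_antisymm h4 ?_
        rw [hw]
        exact max_le h5.le h6
      intro a ha b hb
      have h3 : (a : ℝ) = b := (h2 a ha).trans (h2 b hb).symm
      exact_mod_cast h3
    have hterm : ∀ p ∈ T.filter (fun p : ℕ => (p : ℝ) ≤ w), (nu k p : ℝ) * Real.log p / p ≤ ε / 2 := by
      intro p hp
      obtain ⟨h4, h5, -, -⟩ := hmT p (mem_filter.1 hp).1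
      have hp0 : (0 : ℝ) < p := by linarith
      have h6 : (nu k p : ℝ) ≤ 3 := by exact_mod_cast nu_le k p h4
      have h7 : (nu k p : ℝ) * Real.log p / p ≤ 3 * Real.log p / p :=
        div_le_div_of_nonneg_right (mul_le_mul_of_nonneg_right h6 (Real.log_natCast_nonneg p)) hp0.le
      exact h7.trans (log_small ε p hε hp0 (by linarith))
    have h2 := Finset.sum_le_card_nsmul _ _ _ hterm
    rw [nsmul_eq_mul] at h2
    refine h2.trans ?_
    have h3 : (((T.filter (fun p : ℕ => (p : ℝ) ≤ w)).card : ℕ) : ℝ) ≤ 1 := by exact_mod_cast hcard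
    nlinarith
  -- the others
  have h2 : ∑ p ∈ T.filter (fun p : ℕ => ¬ (p : ℝ) ≤ w), (nu k p : ℝ) * Real.log p / p ≤
      (1 + e) * Real.log y - (1 - e) * Real.log w := by
    have hdisj : Disjoint ((Icc 1 ⌊w⌋₊).filter Nat.Prime) (T.filter (fun p : ℕ => ¬ (p : ℝ) ≤ w)) := by
      rw [Finset.disjoint_left]
      intro p hp hp'
      have h4 := (mem_Icc.1 (mem_filter.1 hp).1).2
      exact (mem_filter.1 hp').2 ((Nat.cast_le.2 h4).trans (Nat.floor_le hw0.le))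
    have hsub : (Icc 1 ⌊w⌋₊).filter Nat.Prime ∪ T.filter (fun p : ℕ => ¬ (p : ℝ) ≤ w) ⊆
        (Icc 1 ⌊y⌋₊).filter Nat.Prime := by
      intro p hp
      rcases mem_union.1 hp with hp | hp
      · obtain ⟨h3, h4⟩ := mem_filter.1 hp
        rw [mem_Icc] at h3
        exact mem_filter.2 ⟨mem_Icc.2 ⟨h3.1, h3.2.trans (Nat.floor_le_floor hwy)⟩, h4⟩
      · obtain ⟨h4, -, -, h5⟩ := hmT p (mem_filter.1 hp).1
        rw [← hy] at h5
        exact mem_filter.2 ⟨mem_Icc.2 ⟨h4.one_lt.le, Nat.le_floor h5⟩, h4⟩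
    have h3 := Finset.sum_le_sum_of_subset_of_nonneg (f := fun p : ℕ => (nu k p : ℝ) * Real.log p / p) hsub
      fun p _ _ => hnn p
    rw [Finset.sum_union hdisj] at h3
    have h5 := (abs_le.1 (hx0 w (hzx.trans hzw))).1
    have h6 := (abs_le.1 (hx0 y (hzx.trans (hzw.trans hwy)))).2
    linarith
  have h3 : Real.log y - Real.log w ≤ Real.log (V / U) := by
    rw [← Real.log_div hy0.ne' hw0.ne']
    refine Real.log_le_log (by positivity) ?_
    rw [div_le_div_iff₀ hw0 hU, hy]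
    rw [div_le_iff₀ hs0] at hUw
    rw [div_mul_eq_mul_div, div_le_iff₀ hs0]
    nlinarith
  have h4 : Real.log y ≤ Real.log V := Real.log_le_log hy0 hyV
  have h5 : Real.log w ≤ Real.log y := Real.log_le_log hw0 hwy
  rw [← Finset.sum_filter_add_sum_filter_not T (fun p : ℕ => (p : ℝ) ≤ w)]
  have h6 : e * (Real.log y + Real.log w) ≤ e * (2 * Real.log V) :=
    mul_le_mul_of_nonneg_left (by linarith) he0.le
  have h7 : e * (2 * Real.log V) = ε / 2 * Real.log V := by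
    rw [he]
    ring
  nlinarith

end H71.DF
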