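import Pool.Agent.H71.DF.Sqf
import Pool.Agent.H71.DF.Rin

/-!
# [H71 DF RSL] the sum over the rough numbers of an interval, 100-180 lines

`z ≤ U ≤ V ≤ z^R`, `z ≥ z0(k, R, ε)`. CLAIM `Rs k z U V ≤ (1+ε) (log V/log z) ((log (V/U) + ε log V)/log U)`. WLOG `ε ≤ 1`. Let `e = ε/4`.
`Rs` is the sum over the `r ∈ [U, V]`, `Rough z r` (so `r ≥ U > 1`). Part not squarefree: `nsq`: `≤ 3^R (2/z)(1 + log V) ≤ 3^R (2/z)(1 + R log z) ≤ e²` for `z ≥ z0`. Part squarefree: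
`log U ∑ rho(r)/r ≤ ∑_r rho(r)/r log r = ∑_r rho(r)/r ∑_{p ∣ r} log p` (`log r = ∑_{p ∣ r} log p` for squarefree `r`: `Nat.prod_primeFactors_of_squarefree`, `Real.log_prod`). The pair `(r, p)` corresponds to `(s, p)`, `s = r/p`, `p ∤ s`, `s` squarefree and rough, `s ≤ V`, `p ∈ pr z V`,
`U ≤ p s ≤ V`, and `rho(r)/r ≤ (nu(p)/p)(rho(s)/s)` (`rho_mul_le`, `rho_prime`). So it is `≤ ∑_s rho(s)/s ∑_p nu(p) log p/p ≤ (1+e)(log V/log z) (log (V/U) + e log V)` (`sqf` with `e`, `rin` with `e`).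
Total `≤ (1+e)(log V/log z)(log (V/U) + e log V)/log U + e² ≤ (1+ε)(log V/log z)(log (V/U) + ε log V)/log U`, because `log V/log z ≥ 1`, `log V/log U ≥ 1` and `ε log V - e log V ≥ e log V ≥ e² log U`.
-/

set_option autoImplicit false

namespace H71.DF

open Finset H96.DR H23.LP

private theorem sml (R e z : ℝ) (hR : 1 ≤ R) (he : 0 < e) (hz1 : 1 ≤ z)
    (hz : (3 ^ R * 2 * (2 * (1 + R)) / e) ^ 2 ≤ z) : 3 ^ R * (2 / z) * (1 + R * Real.log z) ≤ e := by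
  obtain ⟨r, hr, hrt⟩ : ∃ r : ℝ, 0 < r ∧ r ^ 2 = z :=
    ⟨Real.sqrt z, Real.sqrt_pos.2 (by linarith), Real.sq_sqrt (by linarith)⟩
  have h3 : (0 : ℝ) < 3 ^ R := Real.rpow_pos_of_pos (by norm_num) R
  have hr1 : 1 ≤ r := by
    by_contra h
    push Not at h
    nlinarith
  have h1 : Real.log z ≤ 2 * r := by
    rw [← hrt, Real.log_pow]
    have h2 := Real.log_le_sub_one_of_pos hr
    push_cast
    linarith
  have h2 : 3 ^ R * 2 * (2 * (1 + R)) / e ≤ r := by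
    rw [← hrt] at hz
    exact (pow_le_pow_iff_left₀ (by positivity) hr.le two_ne_zero).1 hz
  rw [div_le_iff₀ he] at h2
  have h4 : 1 + R * Real.log z ≤ 2 * (1 + R) * r := by nlinarith
  have h5 : 3 ^ R * (2 / z) * (1 + R * Real.log z) ≤ 3 ^ R * (2 / z) * (2 * (1 + R) * r) :=
    mul_le_mul_of_nonneg_left h4 (by positivity)
  refine h5.trans ?_
  have h6 : 3 ^ R * (2 / z) * (2 * (1 + R) * r) = 3 ^ R * 2 * (2 * (1 + R)) / r := by
    rw [← hrt]
    field_simp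
  rw [h6, div_le_iff₀ hr]
  linarith

private theorem log_sqf {r : ℕ} (hr : Squarefree r) :
    Real.log r = ∑ p ∈ r.primeFactors, Real.log (p : ℝ) := by
  have h1 := Nat.prod_primeFactors_of_squarefree hr
  have h2 : (r : ℝ) = ∏ p ∈ r.primeFactors, (p : ℝ) := by
    conv_lhs => rw [← h1]
    push_cast
    rfl
  rw [h2, Real.log_prod]
  intro p hp
  have := (Nat.prime_of_mem_primeFactors hp).pos
  positivity

open Classical in
private theorem sqpart (k : ℤ) (z U V D : ℝ) (hz : 3 ≤ z) (hzU : z ≤ U)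
    (hD : ∀ s : ℕ, 1 ≤ s → ∑ p ∈ (pr z V).filter (fun p : ℕ => U ≤ (p : ℝ) * s ∧ (p : ℝ) * s ≤ V),
      (nu k p : ℝ) * Real.log p / p ≤ D) :
    Real.log U * ∑ r ∈ (range (⌊V⌋₊ + 1)).filter (fun r : ℕ => (U ≤ (r : ℝ) ∧ Rough z r) ∧ Squarefree r),
      (rho k r : ℝ) / (r : ℝ) ≤
      (∑ s ∈ (Icc 1 ⌊V⌋₊).filter (fun s : ℕ => Rough z s ∧ Squarefree s), (rho k s : ℝ) / s) * D := by
  set A := (range (⌊V⌋₊ + 1)).filter (fun r : ℕ => (U ≤ (r : ℝ) ∧ Rough z r) ∧ Squarefree r) with hA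
  set S := (Icc 1 ⌊V⌋₊).filter (fun s : ℕ => Rough z s ∧ Squarefree s) with hS
  have hV0 : ∀ r : ℕ, r ≤ ⌊V⌋₊ → 1 ≤ r → (r : ℝ) ≤ V := by
    intro r h1 h2
    exact (Nat.le_floor_iff' (by omega)).1 h1
  have hAm : ∀ r ∈ A, 1 ≤ r ∧ r ≤ ⌊V⌋₊ ∧ U ≤ r ∧ Rough z r ∧ Squarefree r := by
    intro r hr
    rw [hA, mem_filter, mem_range] at hr
    obtain ⟨h1, ⟨h2, h3⟩, h4⟩ := hr
    refine ⟨?_, by omega, h2, h3, h4⟩
    have : (0 : ℝ) < r := by linarith
    exact_mod_cast this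
  have h1 : Real.log U * ∑ r ∈ A, (rho k r : ℝ) / (r : ℝ) ≤
      ∑ r ∈ A, ∑ p ∈ r.primeFactors, (rho k r : ℝ) / (r : ℝ) * Real.log p := by
    rw [mul_sum]
    refine sum_le_sum fun r hr => ?_
    obtain ⟨h2, h3, h4, h5, h6⟩ := hAm r hr
    rw [← mul_sum, ← log_sqf h6, mul_comm]
    refine mul_le_mul_of_nonneg_left ?_ (by positivity)
    exact Real.log_le_log (by linarith) h4
  refine h1.trans ?_
  rw [sum_sigma']
  have hfac : ∀ x ∈ A.sigma (fun r => r.primeFactors), ∃ s : ℕ, x.1 = x.2 * s ∧ x.1 / x.2 = s ∧ 1 ≤ s ∧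
      Nat.Coprime x.2 s ∧ x.2.Prime ∧ z < x.2 ∧ Rough z s ∧ Squarefree s ∧ x.1 ≤ ⌊V⌋₊ ∧ U ≤ x.1 := by
    rintro ⟨r, p⟩ hx
    rw [mem_sigma] at hx
    obtain ⟨hx1, hx2⟩ := hx
    dsimp only at hx1 hx2 ⊢
    obtain ⟨h2, h3, h4, h5, h6⟩ := hAm r hx1
    have hp := Nat.prime_of_mem_primeFactors hx2
    obtain ⟨s, hs⟩ := Nat.dvd_of_mem_primeFactors hx2
    have hs1 : 1 ≤ s := by
      rcases Nat.eq_zero_or_pos s with h | h
      · rw [h, mul_zero] at hs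
        omega
      · exact h
    refine ⟨s, hs, ?_, hs1, ?_, hp, h5 p hp ⟨s, hs⟩, ?_, ?_, h3, h4⟩
    · rw [hs, Nat.mul_div_cancel_left _ hp.pos]
    · rw [hs] at h6
      exact (Nat.squarefree_mul_iff.1 h6).1
    · intro q hq hqs
      refine h5 q hq ?_
      rw [hs]
      exact Dvd.dvd.mul_left hqs p
    · rw [hs] at h6
      exact (Nat.squarefree_mul_iff.1 h6).2.2
  obtain ⟨G, hG⟩ : ∃ G : (Σ _ : ℕ, ℕ) → ℝ, G = fun y => (rho k y.1 : ℝ) / y.1 * ((nu k y.2 : ℝ) * Real.log y.2 / y.2) :=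
    ⟨_, rfl⟩
  obtain ⟨i, hi⟩ : ∃ i : (Σ _ : ℕ, ℕ) → (Σ _ : ℕ, ℕ), i = fun x => ⟨x.1 / x.2, x.2⟩ := ⟨_, rfl⟩
  have h2 : ∑ x ∈ A.sigma (fun r => r.primeFactors), (rho k x.1 : ℝ) / (x.1 : ℝ) * Real.log x.2 ≤
      ∑ x ∈ A.sigma (fun r => r.primeFactors), G (i x) := by
    refine sum_le_sum fun x hx => ?_
    obtain ⟨s, h3, h4, h5, h6, h7, h8, -, -, -, -⟩ := hfac x hx
    rw [hG, hi]
    dsimp only
    rw [h4, h3]
    have hr : (rho k (x.2 * s) : ℝ) ≤ nu k x.2 * rho k s := by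
      rw [← rho_prime k h7]
      exact_mod_cast rho_mul_le k h7.pos h5 h6
    have hp0 : (0 : ℝ) < x.2 := by exact_mod_cast h7.pos
    have hs0 : (0 : ℝ) < s := by exact_mod_cast h5
    have hl : 0 ≤ Real.log (x.2 : ℝ) := Real.log_natCast_nonneg _
    push_cast
    calc (rho k (x.2 * s) : ℝ) / ((x.2 : ℝ) * s) * Real.log x.2
        ≤ (nu k x.2 * rho k s : ℝ) / ((x.2 : ℝ) * s) * Real.log x.2 :=
          mul_le_mul_of_nonneg_right (div_le_div_of_nonneg_right hr (by positivity)) hl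
      _ = (rho k s : ℝ) / s * ((nu k x.2 : ℝ) * Real.log x.2 / x.2) := by
          field_simp
  refine h2.trans ?_
  have hinj : Set.InjOn i (A.sigma (fun r => r.primeFactors) : Finset (Σ _ : ℕ, ℕ)) := by
    intro x hx y hy hxy
    obtain ⟨s, h3, h4, -⟩ := hfac x hx
    obtain ⟨t, h5, h6, -⟩ := hfac y hy
    rw [hi] at hxy
    dsimp only at hxy
    rw [Sigma.mk.injEq] at hxy
    obtain ⟨h7, h8⟩ := hxy
    have h8' : x.2 = y.2 := eq_of_heq h8
    rw [h4, h6] at h7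
    rcases x with ⟨a, b⟩
    rcases y with ⟨c, d⟩
    dsimp only at h3 h5 h8'
    rw [Sigma.mk.injEq]
    refine ⟨?_, heq_of_eq h8'⟩
    rw [h3, h5, h7, h8']
  rw [← sum_image (f := G) hinj]
  have hB : (A.sigma (fun r => r.primeFactors)).image i ⊆
      S.sigma (fun s => (pr z V).filter (fun p : ℕ => U ≤ (p : ℝ) * s ∧ (p : ℝ) * s ≤ V)) := by
    intro y hy
    obtain ⟨x, hx, rfl⟩ := mem_image.1 hy
    obtain ⟨s, h3, h4, h5, h6, h7, h8, h9, h10, h11, h12⟩ := hfac x hx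
    rw [hi]
    dsimp only
    rw [h4, mem_sigma]
    dsimp only
    have hsx : s ≤ x.1 := by
      rw [h3]
      exact Nat.le_mul_of_pos_left _ h7.pos
    have hpx : x.2 ≤ x.1 := by
      rw [h3]
      exact Nat.le_mul_of_pos_right _ h5
    have hxs : ((x.1 : ℕ) : ℝ) = x.2 * s := by
      rw [h3]
      push_cast
      rfl
    refine ⟨?_, ?_⟩
    · rw [hS, mem_filter, mem_Icc]
      exact ⟨⟨h5, hsx.trans h11⟩, h9, h10⟩
    · rw [mem_filter]
      refine ⟨?_, ?_, ?_⟩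
      · unfold pr
        rw [mem_filter, mem_range]
        exact ⟨by omega, h7, h8⟩
      · rw [← hxs]
        exact h12
      · rw [← hxs]
        exact hV0 _ h11 (by omega)
  have hGn : ∀ y, 0 ≤ G y := by
    intro y
    rw [hG]
    have := Real.log_natCast_nonneg y.2
    positivity
  refine (sum_le_sum_of_subset_of_nonneg hB fun y _ _ => hGn y).trans ?_
  rw [sum_sigma, sum_mul]
  refine sum_le_sum fun s hs => ?_
  rw [hG]
  dsimp only
  rw [← mul_sum]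
  refine mul_le_mul_of_nonneg_left (hD s ?_) (by positivity)
  rw [hS, mem_filter, mem_Icc] at hs
  exact hs.1.1

private theorem algb (e a L v u T N : ℝ) (he : 0 < e) (he1 : e ≤ 1 / 4) (ha : 1 ≤ a) (hL : 0 ≤ L) (hu : 0 < u) (huv : u ≤ v)
    (hT : u * T ≤ (1 + e) * a * (L + e * v)) (hN : N ≤ e ^ 2) :
    T + N ≤ (1 + 4 * e) * a * ((L + 4 * e * v) / u) := by
  have h0 : (1 + 4 * e) * a * ((L + 4 * e * v) / u) = (1 + 4 * e) * a * (L + 4 * e * v) / u := by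
    field_simp
  rw [h0, le_div_iff₀ hu]
  have hv : 0 < v := by linarith
  have h1 : N * u ≤ e ^ 2 * u := mul_le_mul_of_nonneg_right hN hu.le
  have h2 : e ^ 2 * u ≤ e * v := by
    have : e ^ 2 ≤ e := by nlinarith
    nlinarith
  have h3 : e * v ≤ a * (e * v) := le_mul_of_one_le_left (by positivity) ha
  have h4 : (1 + e) * a * (L + e * v) + a * (e * v) ≤ (1 + 4 * e) * a * (L + 4 * e * v) := by
    have h5 : 0 ≤ a * L * (3 * e) := by positivity
    have h6 : 0 ≤ a * (e * v) := by positivity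
    have h7 : 0 ≤ a * (e * v) * e := by positivity
    nlinarith
  nlinarith

theorem Rs_le (k : ℤ) (hk : ∀ t : ℤ, t ^ 3 ≠ k) (R ε : ℝ) (hR : 1 ≤ R) (hε : 0 < ε) (hε1 : ε ≤ 1) : ∃ z0 : ℝ, 3 ≤ z0 ∧ ∀ z U V : ℝ,
    z0 ≤ z → z ≤ U → U ≤ V → V ≤ z ^ R →
    Rs k z U V ≤ (1 + ε) * (Real.log V / Real.log z) * ((Real.log (V / U) + ε * Real.log V) / Real.log U) := by
  have hk0 : k ≠ 0 := fun h => hk 0 (by rw [h]; norm_num)
  obtain ⟨e, he⟩ : ∃ e : ℝ, e = ε / 4 := ⟨_, rfl⟩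
  have he0 : 0 < e := by
    rw [he]
    positivity
  have he4 : ε = 4 * e := by
    rw [he]
    ring
  obtain ⟨z1, hz1, hs⟩ := sqf k hk R e hR he0
  obtain ⟨z2, hz2, hr⟩ := rin k hk e he0
  refine ⟨max (max z1 z2) (max (3 * |(k : ℝ)| + 3) ((3 ^ R * 2 * (2 * (1 + R)) / e ^ 2) ^ 2)),
    (hz1.trans (le_max_left _ _)).trans (le_max_left _ _), ?_⟩
  intro z U V hz hzU hUV hVR
  have hz1' : z1 ≤ z := ((le_max_left _ _).trans (le_max_left _ _)).trans hz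
  have hz2' : z2 ≤ z := ((le_max_right _ _).trans (le_max_left _ _)).trans hz
  have hz3' : 3 * |(k : ℝ)| + 3 ≤ z := ((le_max_left _ _).trans (le_max_right _ _)).trans hz
  have hz4' : (3 ^ R * 2 * (2 * (1 + R)) / e ^ 2) ^ 2 ≤ z := ((le_max_right _ _).trans (le_max_right _ _)).trans hz
  have hz3 : 3 ≤ z := hz1.trans hz1'
  have hU3 : 3 ≤ U := hz3.trans hzU
  have hV3 : 3 ≤ V := hU3.trans hUV
  have hlz : 0 < Real.log z := Real.log_pos (by linarith)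
  have hlU : 0 < Real.log U := Real.log_pos (by linarith)
  have hlUV : Real.log U ≤ Real.log V := Real.log_le_log (by linarith) hUV
  have hlzV : Real.log z ≤ Real.log V := Real.log_le_log (by linarith) (hzU.trans hUV)
  have ha : 1 ≤ Real.log V / Real.log z := by
    rw [le_div_iff₀ hlz]
    linarith
  have hL : 0 ≤ Real.log (V / U) := Real.log_nonneg (by rw [le_div_iff₀ (by linarith)]; linarith)
  have hlVR : Real.log V ≤ R * Real.log z := by
    rw [← Real.log_rpow (by linarith)]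
    exact Real.log_le_log (by linarith) hVR
  classical
  have hsplit : Rs k z U V =
      ∑ r ∈ (range (⌊V⌋₊ + 1)).filter (fun r : ℕ => (U ≤ (r : ℝ) ∧ Rough z r) ∧ Squarefree r),
        (rho k r : ℝ) / (r : ℝ) +
      ∑ r ∈ (range (⌊V⌋₊ + 1)).filter (fun r : ℕ => (U ≤ (r : ℝ) ∧ Rough z r) ∧ ¬ Squarefree r),
        (rho k r : ℝ) / (r : ℝ) := by
    unfold Rs
    rw [← sum_filter_add_sum_filter_not _ (fun r : ℕ => Squarefree r), filter_filter, filter_filter]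
  have hN : ∑ r ∈ (range (⌊V⌋₊ + 1)).filter (fun r : ℕ => (U ≤ (r : ℝ) ∧ Rough z r) ∧ ¬ Squarefree r),
        (rho k r : ℝ) / (r : ℝ) ≤ e ^ 2 := by
    have h1 := nsq k hk0 z R V hz3' (by linarith) (by linarith) hVR
    have h2 := sml R (e ^ 2) z hR (by positivity) (by linarith) hz4'
    have h3 : 3 ^ R * (2 / z) * (1 + Real.log V) ≤ 3 ^ R * (2 / z) * (1 + R * Real.log z) :=
      mul_le_mul_of_nonneg_left (by linarith) (by positivity)
    refine le_trans (sum_le_sum_of_subset_of_nonneg ?_ fun r _ _ => by positivity) (h1.trans (h3.trans h2))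
    intro r hr
    rw [mem_filter, mem_range] at hr
    obtain ⟨h1, ⟨h2, h3⟩, h4⟩ := hr
    rw [mem_filter, mem_Icc]
    refine ⟨⟨?_, by omega⟩, h3, h4⟩
    have : (0 : ℝ) < r := by linarith
    exact_mod_cast this
  have hT := sqpart k z U V (Real.log (V / U) + e * Real.log V) hz3 hzU
    (fun s h => hr z U V hz2' (hzU.trans hUV) (by linarith) hUV s h)
  have hT2 : (∑ s ∈ (Icc 1 ⌊V⌋₊).filter (fun s : ℕ => Rough z s ∧ Squarefree s), (rho k s : ℝ) / s) *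
      (Real.log (V / U) + e * Real.log V) ≤
      (1 + e) * (Real.log V / Real.log z) * (Real.log (V / U) + e * Real.log V) := by
    refine mul_le_mul_of_nonneg_right (hs z V hz1' (hzU.trans hUV) hVR) ?_
    have : 0 ≤ e * Real.log V := by nlinarith
    linarith
  rw [hsplit, he4]
  exact algb e _ _ _ _ _ _ he0 (by rw [he]; linarith) ha hL hlU hlUV (hT.trans hT2) hN

end H71.DF
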