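import Pool.Agent.H71.DF.Win
import Pool.Agent.H71.DF.Rsl

/-!
# [H71 DF CPB] one block, 80-140 lines

`B ≥ 1`, `x ≤ B X`, `2X ≤ x + 1`, `x ≥ x0(k, B, η)`, `0 < d ≤ 1/500`. CLAIM `Cp k X x (x^(1+d)) ≤ (224 d + η) X`. `win` with `η/2`: `2 x^(1+d) ≤ 2 x^1.002 ≤ 2 (B X)^1.002 ≤ X^1.00201` for `X ≥ x/B` large. `z = X^0.0048`.
`Rs_le` with `R = 300`, `ε` (small, depending on `η`): `z ≤ U = x/3`, `U ≤ V = 5 x^(1+d)`, `V ≤ 5 (B X)^1.002 ≤ z^300 = X^1.44`. `log V/log z ≤ (log 5 + (1+d) log x)/(0.0048 (log x - log B)) ≤ (1.002 + ε)/0.0048 ≤ 208.75 + 209 ε`,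
`(log (V/U) + ε log V)/log U = (log 15 + d log x + ε (log 5 + (1+d) log x))/(log x - log 3) ≤ d + 3 ε` for `x` large (`d ≤ 1/500`; all error terms are `≤ C/log x`). So `Rs ≤ (1+ε)(208.75 + 209 ε)(d + 3ε)` and
`1.07 · 208.75 < 223.4`, so `1.07 Rs ≤ 224 d + η/2` for `ε` small (`ε = η/10^4` with `η ≤ 1`: `(1+ε)(208.75+209ε) ≤ 209`, `1.07 · 209 (d + 3ε) ≤ 223.7 d + 671 ε`).
-/

set_option autoImplicit false

namespace H71.DF

open Finset H96.DR H23.LP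

private theorem cpb_num (l b LX ε d c3 c5 c15 : ℝ) (hb : 0 ≤ b) (hε : 0 < ε) (hε1 : ε ≤ 1 / 10000) (hd : 0 < d)
    (hd1 : d ≤ 1 / 500) (hl : 1000000 * (1 + b) ≤ l) (hl2 : 4 ≤ ε * l) (h1 : l - b ≤ LX)
    (_h3 : 0 ≤ c3) (h3' : c3 ≤ 1.39) (h5 : 0 ≤ c5) (h5' : c5 ≤ 2.1) (h15 : 0 ≤ c15) (h15' : c15 ≤ 2.78) :
    1.07 * ((1 + ε) * ((c5 + (1 + d) * l) / (0.0048 * LX)) * ((c15 + d * l + ε * (c5 + (1 + d) * l)) / (l - c3))) ≤
      224 * d + 500 * ε := by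
  have hl0 : 1000000 ≤ l := by nlinarith
  have hLX : 0 < LX := by nlinarith
  have hlc : 0 < l - c3 := by linarith
  have e1 : (c5 + (1 + d) * l) / (0.0048 * LX) ≤ 208.76 := by
    rw [div_le_iff₀ (by positivity)]
    nlinarith
  have e10 : 0 ≤ (c5 + (1 + d) * l) / (0.0048 * LX) := by positivity
  have e2 : (c15 + d * l + ε * (c5 + (1 + d) * l)) / (l - c3) ≤ d + 2 * ε := by
    rw [div_le_iff₀ hlc]
    have q1 : ε * c5 ≤ 0.001 := by nlinarith
    have q2 : ε * (d * l) ≤ 0.002 * (ε * l) := by nlinarith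
    have q3 : d * c3 ≤ 0.01 := by nlinarith
    have q4 : ε * c3 ≤ 0.001 := by nlinarith
    nlinarith
  have e20 : 0 ≤ (c15 + d * l + ε * (c5 + (1 + d) * l)) / (l - c3) := by positivity
  have e3 : (1 + ε) * ((c5 + (1 + d) * l) / (0.0048 * LX)) ≤ 208.79 := by nlinarith
  have e30 : 0 ≤ (1 + ε) * ((c5 + (1 + d) * l) / (0.0048 * LX)) := by positivity
  have e4 : (1 + ε) * ((c5 + (1 + d) * l) / (0.0048 * LX)) * ((c15 + d * l + ε * (c5 + (1 + d) * l)) / (l - c3)) ≤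
      208.79 * (d + 2 * ε) := mul_le_mul e3 e2 e20 (by norm_num)
  nlinarith

theorem cpb (k : ℤ) (hk : ∀ t : ℤ, t ^ 3 ≠ k) (hW : Window k) (B η : ℝ) (hB : 1 ≤ B) (hη : 0 < η) : ∃ x0 : ℕ, ∀ x X : ℕ, x0 ≤ x →
    2 * X ≤ x + 1 → (x : ℝ) ≤ B * X → ∀ d : ℝ, 0 < d → d ≤ 1 / 500 →
    (Cp k X x ((x : ℝ) ^ (1 + d)) : ℝ) ≤ (224 * d + η) * X := by
  obtain ⟨η1, hη1⟩ : ∃ η1 : ℝ, η1 = min η 1 := ⟨_, rfl⟩
  have hη10 : 0 < η1 := by rw [hη1]; positivity
  have hη1η : η1 ≤ η := by rw [hη1]; exact min_le_left _ _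
  have hη11 : η1 ≤ 1 := by rw [hη1]; exact min_le_right _ _
  obtain ⟨ε, hε⟩ : ∃ ε : ℝ, ε = η1 / 10000 := ⟨_, rfl⟩
  have hε0 : 0 < ε := by rw [hε]; positivity
  have hε1 : ε ≤ 1 / 10000 := by rw [hε]; linarith
  obtain ⟨X0, hX0⟩ := win k hW (η1 / 2) (by positivity)
  obtain ⟨z0, hz0, hRs⟩ := Rs_le k hk 300 ε (by norm_num) hε0 (by linarith)
  obtain ⟨b, hb⟩ : ∃ b : ℝ, b = Real.log B := ⟨_, rfl⟩
  have hb0 : 0 ≤ b := by rw [hb]; exact Real.log_nonneg hB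
  have hB0 : 0 < B := by linarith
  have hz00 : 0 ≤ Real.log z0 := Real.log_nonneg (by linarith)
  obtain ⟨T, hT⟩ : ∃ T : ℝ, T = 1000000 * (1 + b) + 4 / ε + 1000 * Real.log z0 := ⟨_, rfl⟩
  obtain ⟨x0, hx0⟩ : ∃ x0 : ℕ, x0 = max ⌈Real.exp T⌉₊ (⌈B * X0⌉₊ + 1) := ⟨_, rfl⟩
  refine ⟨x0, fun x X hx hX hxX d hd hd1 => ?_⟩
  have hxa : Real.exp T ≤ x := (Nat.le_ceil _).trans (by
    exact_mod_cast (le_max_left _ _).trans (hx0 ▸ hx))
  have hxb : B * X0 ≤ x := (Nat.le_ceil _).trans (by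
    exact_mod_cast (Nat.le_succ _).trans ((le_max_right _ _).trans (hx0 ▸ hx)))
  have hxpos : (0 : ℝ) < x := (Real.exp_pos _).trans_le hxa
  obtain ⟨l, hl⟩ : ∃ l : ℝ, l = Real.log x := ⟨_, rfl⟩
  have hlT : T ≤ l := by
    rw [hl, Real.le_log_iff_exp_le hxpos]
    exact hxa
  have h4e : 0 < 4 / ε := by positivity
  have hl1 : 1000000 * (1 + b) ≤ l := by rw [hT] at hlT; linarith
  have hl2 : 4 ≤ ε * l := by
    have h1 : 4 / ε ≤ l := by
      rw [hT] at hlT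
      nlinarith
    rw [div_le_iff₀ hε0] at h1
    linarith
  have hl3 : 1000 * Real.log z0 + 1000000 * (1 + b) ≤ l := by rw [hT] at hlT; linarith
  have hXX0 : X0 ≤ X := by
    have h1 : B * X0 ≤ B * X := hxb.trans hxX
    have h2 : (X0 : ℝ) ≤ X := le_of_mul_le_mul_left h1 hB0
    exact_mod_cast h2
  have hXpos : (0 : ℝ) < X := by
    by_contra h
    push Not at h
    nlinarith
  have hXx : X ≤ x := by
    have : 1 ≤ X := by
      have : 0 < X := by exact_mod_cast hXpos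
      omega
    omega
  have hXx' : (X : ℝ) ≤ x := by exact_mod_cast hXx
  obtain ⟨LX, hLX⟩ : ∃ LX : ℝ, LX = Real.log X := ⟨_, rfl⟩
  have hLX1 : l - b ≤ LX := by
    have h1 := Real.log_le_log hxpos hxX
    rw [Real.log_mul hB0.ne' hXpos.ne'] at h1
    rw [hl, hb, hLX]
    linarith
  have hLX2 : LX ≤ l := by
    rw [hl, hLX]
    exact Real.log_le_log hXpos hXx'
  have hl0 : 1000000 ≤ l := by nlinarith
  -- logarithms of small numbers
  have hlog2 := Real.log_two_lt_d9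
  have h3 : 0 ≤ Real.log 3 := Real.log_nonneg (by norm_num)
  have h3' : Real.log 3 ≤ 1.39 := by
    have h1 : Real.log 3 ≤ Real.log (2 ^ 2) := Real.log_le_log (by norm_num) (by norm_num)
    rw [Real.log_pow] at h1
    push_cast at h1
    linarith
  have h5 : 0 ≤ Real.log 5 := Real.log_nonneg (by norm_num)
  have h5' : Real.log 5 ≤ 2.1 := by
    have h1 : Real.log 5 ≤ Real.log (2 ^ 3) := Real.log_le_log (by norm_num) (by norm_num)
    rw [Real.log_pow] at h1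
    push_cast at h1
    linarith
  have h15 : 0 ≤ Real.log 15 := Real.log_nonneg (by norm_num)
  have h15' : Real.log 15 ≤ 2.78 := by
    have h1 : Real.log 15 ≤ Real.log (2 ^ 4) := Real.log_le_log (by norm_num) (by norm_num)
    rw [Real.log_pow] at h1
    push_cast at h1
    linarith
  obtain ⟨v, hv⟩ : ∃ v : ℝ, v = (x : ℝ) ^ (1 + d) := ⟨_, rfl⟩
  have hvpos : 0 < v := by rw [hv]; positivity
  have hlv : Real.log v = (1 + d) * l := by rw [hv, Real.log_rpow hxpos, hl]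
  have hdl : (1 + d) * l ≤ 1.002 * l := mul_le_mul_of_nonneg_right (by linarith) (by linarith)
  have hdl0 : 0 ≤ (1 + d) * l := by positivity
  have hbl : 1000000 + 1000000 * b ≤ l := by linarith
  have hx1 : (1 : ℝ) ≤ x := by
    have : 0 < Real.log x := by rw [← hl]; linarith
    by_contra h
    push Not at h
    have := Real.log_nonpos hxpos.le h.le
    linarith
  have huv : (x : ℝ) ≤ v := by
    rw [hv]
    calc (x : ℝ) = (x : ℝ) ^ (1 : ℝ) := (Real.rpow_one _).symm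
      _ ≤ _ := Real.rpow_le_rpow_of_exponent_le hx1 (by linarith)
  have h2v : 2 * v ≤ (X : ℝ) ^ (1.00201 : ℝ) := by
    rw [← Real.log_le_log_iff (by positivity) (by positivity), Real.log_mul (by norm_num) hvpos.ne', hlv,
      Real.log_rpow hXpos, ← hLX]
    linarith
  have hwin := hX0 X hXX0 x v (by exact_mod_cast hX) huv h2v
  obtain ⟨z, hz⟩ : ∃ z : ℝ, z = (X : ℝ) ^ (0.0048 : ℝ) := ⟨_, rfl⟩
  have hzpos : 0 < z := by rw [hz]; positivity
  have hlz : Real.log z = 0.0048 * LX := by rw [hz, Real.log_rpow hXpos, hLX]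
  have hzz : z0 ≤ z := by
    rw [← Real.log_le_log_iff (by linarith) hzpos, hlz]
    linarith
  have hzU : z ≤ (x : ℝ) / 3 := by
    rw [← Real.log_le_log_iff hzpos (by positivity), hlz, Real.log_div hxpos.ne' (by norm_num), ← hl]
    linarith
  have hUV : (x : ℝ) / 3 ≤ 5 * v := by linarith
  have hVz : 5 * v ≤ z ^ (300 : ℝ) := by
    rw [← Real.log_le_log_iff (by positivity) (by positivity), Real.log_mul (by norm_num) hvpos.ne', hlv,
      Real.log_rpow hzpos, hlz]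
    linarith
  have hR := hRs z (x / 3) (5 * v) hzz hzU hUV hVz
  have hd1' : Real.log (5 * v / (x / 3)) = Real.log 15 + d * l := by
    have e : 5 * v / ((x : ℝ) / 3) = 15 * v / x := by field_simp; ring
    rw [e, Real.log_div (by positivity) hxpos.ne', Real.log_mul (by norm_num) hvpos.ne', hlv, ← hl]
    ring
  rw [hd1', Real.log_mul (by norm_num) hvpos.ne', hlv, hlz, Real.log_div hxpos.ne' (by norm_num), ← hl] at hR
  have hnum := cpb_num l b LX ε d (Real.log 3) (Real.log 5) (Real.log 15) hb0 hε0 hε1 hd hd1 hl1 hl2 hLX1 h3 h3' h5 h5'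
    h15 h15'
  rw [← hv]
  rw [← hz] at hwin
  have hmain : 1.07 * Rs k z (x / 3) (5 * v) ≤ 224 * d + 500 * ε :=
    (mul_le_mul_of_nonneg_left hR (by norm_num)).trans hnum
  have hε5 : 500 * ε ≤ η1 / 2 := by rw [hε]; linarith
  calc (Cp k X x v : ℝ) ≤ 1.07 * X * Rs k z (x / 3) (5 * v) + η1 / 2 * X := hwin
    _ = (1.07 * Rs k z (x / 3) (5 * v) + η1 / 2) * X := by ring
    _ ≤ (224 * d + η) * X := mul_le_mul_of_nonneg_right (by linarith) hXpos.le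

end H71.DF
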