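import Pool.Agent.H96.DR.Def

/-!
# [H71 DF DEF] DR (MP_4d57ea_nt), chapter F: from the windows to the final theorem. Definitions

Blueprint: helper96, think 1417; chapter F: helper71. `Window k` is the result of the assembly (helper96), `SqDiv k` is chapter P (helper97, `H97/DR/Pfi.lean`).
PLAN. `Pss`, `Nsq`, `Sqf`, `Rin`, `Rsl`: `Rs k z U V ≤ (1+ε) (log V/log z) (log (V/U) + ε log V)/log U`. `Ovl`, `Win`: average over shifted windows, the number `Cp` of pairs `(m, p)`, `m ∈ (X, 2X]`, `u < p ≤ v`. `Cpb`, `Prs`: pairs with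
`x < p ≤ x^(1+d)`, `m ≤ x`: at most `(224 d + η) x`. `Sqd`: squares. `Spl`, `Chb`: Chebyshev. `Fin`: the theorem.
-/

set_option autoImplicit false

namespace H71.DF

open Finset H96.DR H23.LP

/-- the result of the assembly -/
def Window (k : ℤ) : Prop := ∀ ε : ℝ, 0 < ε → ∃ X0 : ℕ, ∀ X : ℕ, X0 ≤ X → ∀ Y : ℝ, (X : ℝ) ≤ Y →
  Y ≤ (X : ℝ) ^ (1.00201 : ℝ) →
  (Sw k X Y : ℝ) ≤ 1.06 * X * Rs k ((X : ℝ) ^ (0.0048 : ℝ)) ((1 - ε) * Y) ((2 + ε) * Y) + ε * X / Real.log X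

/-- the result of chapter P -/
def SqDiv (k : ℤ) : Prop := ∀ κ ε : ℝ, 0 < κ → 0 < ε → ∃ X0 : ℕ, ∀ X : ℕ, X0 ≤ X → ∀ Z : Finset ℤ,
  (∀ m ∈ Z, m ∈ Ioc (X : ℤ) (2 * X) ∧ ∃ p : ℕ, p.Prime ∧ (X : ℝ) ^ (1 + κ) < p ∧ (p : ℤ) ^ 2 ∣ m ^ 3 + k) →
  (Z.card : ℝ) ≤ ε * X

/-- the number of pairs `(m, p)`, `m ∈ (X, 2X]`, `p` prime, `u < p ≤ v`, `p ∣ m ^ 3 + k` -/
noncomputable def Cp (k : ℤ) (X : ℕ) (u v : ℝ) : ℕ :=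
  (((Ioc (X : ℤ) (2 * X)) ×ˢ range (⌊v⌋₊ + 1)).filter fun x =>
    x.2.Prime ∧ u < x.2 ∧ (x.2 : ℝ) ≤ v ∧ (x.2 : ℤ) ∣ x.1 ^ 3 + k).card

theorem Sw_eq (k : ℤ) (X : ℕ) (Y : ℝ) : Sw k X Y = Cp k X Y (2 * Y) := rfl

/-- the number of pairs `(m, p)`, `1 ≤ m ≤ w`, `p` prime, `u < p ≤ v`, `p ∣ m ^ 3 + k` -/
noncomputable def Np (k : ℤ) (w : ℕ) (u v : ℝ) : ℕ :=
  (((Icc 1 w) ×ˢ range (⌊v⌋₊ + 1)).filter fun x =>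
    x.2.Prime ∧ u < x.2 ∧ (x.2 : ℝ) ≤ v ∧ (x.2 : ℤ) ∣ (x.1 : ℤ) ^ 3 + k).card

open Classical in
/-- the number of `1 ≤ m ≤ w` with `p ^ 2 ∣ m ^ 3 + k` for a prime `p > u` -/
noncomputable def Nq (k : ℤ) (w : ℕ) (u : ℝ) : ℕ :=
  ((Icc 1 w).filter fun m : ℕ => ∃ p : ℕ, p.Prime ∧ u < p ∧ (p : ℤ) ^ 2 ∣ (m : ℤ) ^ 3 + k).card

/-- the primes in `(z, V]` -/
noncomputable def pr (z V : ℝ) : Finset ℕ := (range (⌊V⌋₊ + 1)).filter fun p : ℕ => p.Prime ∧ z < p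

end H71.DF
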