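import Pool.Agent.H71.DF.Chb
import Pool.Agent.H96.DR.Win
import Pool.Agent.H97.DR.Pfi

/-!
# The final statement: large prime factors of `m ^ 3 + k` for more than half of all `m`
-/

set_option autoImplicit false

namespace H71.DF

open Finset

open Classical in
theorem large (k : ℤ) (hk : ∀ t : ℤ, t ^ 3 ≠ k) (d : ℝ) (hd : 0 < d) (hd1 : d ≤ 1 / 500) :
    ∃ x0 : ℕ, ∀ x : ℕ, x0 ≤ x → (2 / 3 - 80 * d) * x ≤
      (((Icc 1 x).filter fun m : ℕ => ∃ p : ℕ, p.Prime ∧ (x : ℝ) ^ (1 + d) < p ∧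
        (p : ℤ) ∣ (m : ℤ) ^ 3 + k).card : ℝ) :=
  chb k hk (fun ε hε => H96.DR.window k hk ε hε) (fun κ ε hκ hε => H97.DR.sq_div k hk κ ε hκ hε) d hd hd1

end H71.DF
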