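import Pool.Agent.H71.DF.Def
import Pool.Agent.H97.DR.Prh
import Pool.Agent.H92.LP.Glue

/-!
# [H71 DF NSQ] the numbers which are not squarefree, 80-140 lines

Let `z ≥ 3 |k| + 3`, `1 ≤ V ≤ z^R`. `rho_sqf`: for a squarefree `r ≥ 1`: `rho k r ≤ ∏_{p ∣ r} nu k p` (`H97.DR.rho_eq`, `H97.DR.rk_mul`, induction over `r.primeFactors`; `rho k p = nu k p` for a prime `p`: `H97.DR.rho_eq`, `Pool.Agent.H92.LP.rk_eq_nu`).
`rho_rough`: for a `z`-rough `r`, `1 ≤ r ≤ z^R`: `rho k r ≤ 3^R` (real power): `rho k r = rk k r ≤ ∏_{p ∣ r} rk k (p^{v_p(r)}) ≤ 3^ω(r)` (`rk_mul` and induction `Nat.recOnPosPrimePosCoprime`, or `H97.DR.rk_prod`; `Pool.Agent.H92.LP.rk_le` as `p > z ≥ 3|k|` and `k ≠ 0`, so `p ∤ 3k`),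
and `z^ω(r) ≤ ∏_{p ∣ r} p ≤ r ≤ z^R`, so `ω(r) ≤ R`.
`nsq`: the sum of `rho k r/r` over the `z`-rough `1 ≤ r ≤ V` which are not squarefree is `≤ 3^R (2/z)(1 + log V)`: such an `r` is `p² r'` with a prime `p > z`, `1 ≤ r' ≤ V`, so the sum is `≤ 3^R ∑_{n > z} 1/n² ∑_{r' ≤ V} 1/r'`;
`∑_{n > z, n ≤ N} 1/n² ≤ 1/(z - 1) ≤ 2/z` (telescoping `1/n² ≤ 1/(n-1) - 1/n`, careful with the first term: `1/⌊z⌋ ≤ 2/z`), `∑_{r' ≤ V} 1/r' ≤ 1 + log V` (`harmonic_floor_le_one_add_log`).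
-/

set_option autoImplicit false

namespace H71.DF

open Finset H96.DR H23.LP

theorem rho_mul_le (k : ℤ) {a b : ℕ} (ha : 0 < a) (hb : 0 < b) (hab : Nat.Coprime a b) : rho k (a * b) ≤ rho k a * rho k b := by
  rw [H97.DR.rho_eq, H97.DR.rho_eq, H97.DR.rho_eq]
  exact H97.DR.rk_mul k ha hb hab

theorem rho_prime (k : ℤ) {p : ℕ} (hp : p.Prime) : rho k p = nu k p := by
  rw [H97.DR.rho_eq, Pool.Agent.H92.LP.rk_eq_nu k hp.pos]

private theorem rho_one (k : ℤ) : rho k 1 ≤ 1 := by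
  unfold rho
  exact (card_filter_le _ _).trans (by simp)

theorem rho_sqf (k : ℤ) (r : ℕ) (hr : Squarefree r) : rho k r ≤ ∏ p ∈ r.primeFactors, nu k p := by
  induction r using Nat.recOnPosPrimePosCoprime with
  | prime_pow p n hp hn =>
    have h1 : n = 1 := by
      by_contra h
      have h2 : p * p ∣ p ^ n := by
        rw [← pow_two]
        exact pow_dvd_pow p (by omega)
      exact hp.one_lt.ne' (Nat.isUnit_iff.1 (hr p h2))
    rw [h1, pow_one, hp.primeFactors, prod_singleton, rho_prime k hp]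
  | zero => exact absurd hr not_squarefree_zero
  | one => simpa using rho_one k
  | coprime a b ha hb hab iha ihb =>
    have h1 : Squarefree a := hr.squarefree_of_dvd (Dvd.intro _ rfl)
    have h2 : Squarefree b := hr.squarefree_of_dvd (Dvd.intro_left _ rfl)
    rw [hab.primeFactors_mul, prod_union hab.disjoint_primeFactors]
    exact (rho_mul_le k (by omega) (by omega) hab).trans (Nat.mul_le_mul (iha h1) (ihb h2))

private theorem rho_three (k : ℤ) (r : ℕ) (hr0 : 0 < r) (hr : ∀ p : ℕ, p.Prime → p ∣ r → ¬ (p : ℤ) ∣ 3 * k) :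
    rho k r ≤ 3 ^ r.primeFactors.card := by
  induction r using Nat.recOnPosPrimePosCoprime with
  | prime_pow p n hp hn =>
    rw [Nat.primeFactors_prime_pow hn.ne' hp, card_singleton, pow_one, H97.DR.rho_eq]
    exact Pool.Agent.H92.LP.rk_le hp (hr p hp (dvd_pow_self p hn.ne')) hn
  | zero => omega
  | one => simpa using rho_one k
  | coprime a b ha hb hab iha ihb =>
    rw [hab.primeFactors_mul, card_union_of_disjoint hab.disjoint_primeFactors, pow_add]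
    refine (rho_mul_le k (by omega) (by omega) hab).trans (Nat.mul_le_mul (iha (by omega) ?_) (ihb (by omega) ?_))
    · exact fun p hp h => hr p hp (h.trans (Dvd.intro _ rfl))
    · exact fun p hp h => hr p hp (h.trans (Dvd.intro_left _ rfl))

theorem rho_rough (k : ℤ) (hk0 : k ≠ 0) (z R : ℝ) (hz : 3 * |(k : ℝ)| + 3 ≤ z) (hR : 0 ≤ R) (r : ℕ) (hr : 1 ≤ r) (hr' : Rough z r) (hrR : (r : ℝ) ≤ z ^ R) :
    (rho k r : ℝ) ≤ 3 ^ R := by
  have hk1 : (0 : ℝ) ≤ |(k : ℝ)| := abs_nonneg _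
  have hz1 : 1 < z := by linarith
  have h1 : rho k r ≤ 3 ^ r.primeFactors.card := by
    refine rho_three k r hr fun p hp hpr hd => ?_
    have h2 := hr' p hp hpr
    have h3 : (3 * k).natAbs ≠ 0 := by
      rw [Int.natAbs_ne_zero]
      exact mul_ne_zero (by norm_num) hk0
    have h4 : p ∣ (3 * k).natAbs := Int.natCast_dvd.1 hd
    have h5 := Nat.le_of_dvd (Nat.pos_of_ne_zero h3) h4
    have h6 : (((3 * k).natAbs : ℕ) : ℝ) = 3 * |(k : ℝ)| := by
      rw [Nat.cast_natAbs, abs_mul]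
      push_cast
      norm_num
    have h7 : (p : ℝ) ≤ 3 * |(k : ℝ)| := by
      rw [← h6]
      exact_mod_cast h5
    linarith
  have h2 : z ^ r.primeFactors.card ≤ (r : ℝ) := by
    have h3 : z ^ r.primeFactors.card ≤ ∏ p ∈ r.primeFactors, (p : ℝ) := by
      rw [← prod_const]
      refine prod_le_prod (fun _ _ => by linarith) fun p hp => ?_
      exact (hr' p (Nat.prime_of_mem_primeFactors hp) (Nat.dvd_of_mem_primeFactors hp)).le
    refine h3.trans ?_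
    have h4 := Nat.le_of_dvd (by omega) (Nat.prod_primeFactors_dvd r)
    have h5 : ((∏ p ∈ r.primeFactors, p : ℕ) : ℝ) ≤ r := Nat.cast_le.2 h4
    rwa [Nat.cast_prod] at h5
  have h3 : (r.primeFactors.card : ℝ) ≤ R := by
    have h4 := h2.trans hrR
    rw [← Real.rpow_natCast] at h4
    exact (Real.rpow_le_rpow_left_iff hz1).1 h4
  calc (rho k r : ℝ) ≤ (3 : ℝ) ^ r.primeFactors.card := by exact_mod_cast h1
    _ = (3 : ℝ) ^ (r.primeFactors.card : ℝ) := (Real.rpow_natCast _ _).symm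
    _ ≤ 3 ^ R := Real.rpow_le_rpow_of_exponent_le (by norm_num) h3

open Classical in
theorem nsq (k : ℤ) (hk0 : k ≠ 0) (z R V : ℝ) (hz : 3 * |(k : ℝ)| + 3 ≤ z) (hR : 0 ≤ R) (hV : 1 ≤ V) (hV' : V ≤ z ^ R) :
    ∑ r ∈ (Icc 1 ⌊V⌋₊).filter (fun r : ℕ => Rough z r ∧ ¬ Squarefree r), (rho k r : ℝ) / r ≤
      3 ^ R * (2 / z) * (1 + Real.log V) := by
  have hk1 : (0 : ℝ) ≤ |(k : ℝ)| := abs_nonneg _
  have hz3 : 3 ≤ z := by linarith
  set T := (Icc 1 ⌊V⌋₊).filter (fun r : ℕ => Rough z r ∧ ¬ Squarefree r) with hT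
  have hTm : ∀ r ∈ T, 1 ≤ r ∧ (r : ℝ) ≤ V ∧ Rough z r ∧ ¬ Squarefree r := by
    intro r hr
    rw [hT, mem_filter, mem_Icc] at hr
    exact ⟨hr.1.1, (Nat.le_floor_iff (by linarith)).1 hr.1.2, hr.2.1, hr.2.2⟩
  have hex : ∀ r : ℕ, ∃ p : ℕ, ¬ Squarefree r → p.Prime ∧ p * p ∣ r := by
    intro r
    by_cases h : Squarefree r
    · exact ⟨0, fun h' => absurd h h'⟩
    · rw [Nat.squarefree_iff_prime_squarefree] at h
      push Not at h
      obtain ⟨p, hp, hpr⟩ := h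
      exact ⟨p, fun _ => ⟨hp, hpr⟩⟩
  choose q hq using hex
  have h1 : ∑ r ∈ T, (rho k r : ℝ) / r ≤ 3 ^ R * ∑ r ∈ T, (1 : ℝ) / r := by
    rw [mul_sum]
    refine sum_le_sum fun r hr => ?_
    obtain ⟨h2, h3, h4, -⟩ := hTm r hr
    rw [mul_one_div]
    gcongr
    exact rho_rough k hk0 z R hz hR r h2 h4 (h3.trans hV')
  set M := ⌊z⌋₊ with hM
  set N := ⌊V⌋₊ with hN
  have hzM : z ≤ 2 * M := by
    have := Nat.lt_floor_add_one z
    rw [← hM] at this
    linarith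
  have hM0 : M ≠ 0 := by
    rw [hM]
    exact (Nat.floor_pos.2 (by linarith)).ne'
  have h2 : ∑ r ∈ T, (1 : ℝ) / r ≤ ∑ x ∈ (Ioc M N) ×ˢ (Icc 1 N), (((x.1 : ℝ) ^ 2)⁻¹ * ((x.2 : ℝ))⁻¹) := by
    have hqf : ∀ r ∈ T, r = q r * q r * (r / (q r * q r)) := by
      intro r hr
      obtain ⟨-, -, -, h4⟩ := hTm r hr
      exact (Nat.mul_div_cancel' (hq r h4).2).symm
    have hinj : Set.InjOn (fun r => (q r, r / (q r * q r))) (T : Set ℕ) := by
      intro r hr s hs h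
      simp only [Prod.mk.injEq] at h
      rw [hqf r hr, hqf s hs, h.2, h.1]
    rw [← sum_coe_sort T]
    rw [sum_coe_sort T (fun r => (1 : ℝ) / r)]
    calc ∑ r ∈ T, (1 : ℝ) / r = ∑ x ∈ T.image (fun r => (q r, r / (q r * q r))), (((x.1 : ℝ) ^ 2)⁻¹ * ((x.2 : ℝ))⁻¹) := by
          rw [sum_image hinj]
          refine sum_congr rfl fun r hr => ?_
          have h3 := hqf r hr
          have h4 : (r : ℝ) = (q r : ℝ) ^ 2 * ((r / (q r * q r) : ℕ) : ℝ) := by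
            have h5 : (r : ℝ) = ((q r * q r * (r / (q r * q r)) : ℕ) : ℝ) := by
              exact_mod_cast h3
            rw [h5]
            push_cast
            ring
          rw [h4, one_div, mul_inv]
      _ ≤ _ := by
          refine sum_le_sum_of_subset_of_nonneg ?_ fun x _ _ => by positivity
          intro x hx
          obtain ⟨r, hr, rfl⟩ := mem_image.1 hx
          obtain ⟨h3, h4, h5, h6⟩ := hTm r hr
          obtain ⟨hp, hd⟩ := hq r h6
          have h7 : q r * q r ≤ r := Nat.le_of_dvd (by omega) hd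
          have h8 := hp.pos
          have h9 : r ≤ N := Nat.le_floor h4
          have h10 : q r ≤ q r * q r := Nat.le_mul_of_pos_left _ h8
          rw [mem_product, mem_Ioc, mem_Icc]
          refine ⟨⟨?_, by omega⟩, ?_, ?_⟩
          · rw [hM]
            exact (Nat.floor_lt (by linarith)).2 (h5 _ hp ((Dvd.intro _ rfl).trans hd))
          · exact Nat.div_pos h7 (Nat.mul_pos h8 h8)
          · exact (Nat.div_le_self _ _).trans h9
  rw [sum_product] at h2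
  have h3 : ∑ x ∈ Ioc M N, ∑ y ∈ Icc 1 N, (((x : ℝ) ^ 2)⁻¹ * ((y : ℝ))⁻¹) =
      (∑ x ∈ Ioc M N, ((x : ℝ) ^ 2)⁻¹) * ∑ y ∈ Icc 1 N, ((y : ℝ))⁻¹ := by
    rw [sum_mul_sum]
  rw [h3] at h2
  have h4 : ∑ x ∈ Ioc M N, ((x : ℝ) ^ 2)⁻¹ ≤ 2 / z := by
    have h5 : ((M : ℝ))⁻¹ ≤ 2 / z := by
      have hMp : (0 : ℝ) < M := by exact_mod_cast Nat.pos_of_ne_zero hM0
      rw [inv_eq_one_div, div_le_div_iff₀ hMp (by linarith)]
      linarith
    by_cases h : M ≤ N
    · have h6 := sum_Ioc_inv_sq_le_sub (α := ℝ) hM0 h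
      have h7 : (0 : ℝ) ≤ ((N : ℝ))⁻¹ := by positivity
      linarith
    · rw [Ioc_eq_empty (by omega), sum_empty]
      positivity
  have h5 : ∑ y ∈ Icc 1 N, ((y : ℝ))⁻¹ ≤ 1 + Real.log V := by
    have h6 := harmonic_floor_le_one_add_log V hV
    rw [harmonic_eq_sum_Icc] at h6
    push_cast at h6
    exact h6
  have h6 : (0 : ℝ) ≤ ∑ y ∈ Icc 1 N, ((y : ℝ))⁻¹ := sum_nonneg fun _ _ => by positivity
  calc ∑ r ∈ T, (rho k r : ℝ) / r ≤ 3 ^ R * ∑ r ∈ T, (1 : ℝ) / r := h1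
    _ ≤ 3 ^ R * ((2 / z) * (1 + Real.log V)) := by
        refine mul_le_mul_of_nonneg_left (h2.trans (mul_le_mul h4 h5 h6 (by positivity))) (by positivity)
    _ = _ := by ring

end H71.DF
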