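import Pool.Agent.H71.DF.Def

/-!
# [H71 DF OVL] the overlaps of the shifted windows, 60-120 lines

`Y t = 2^(t/N) c` (`t ∈ Icc 1 T`, `c > 0`, `N ≥ 1`), `0 < ε ≤ 1/10`, `U ≤ (1-ε) Y 1`, `(2+ε) Y T ≤ V`. Then `∑_t Rs k z ((1-ε) Y t) ((2+ε) Y t) ≤ (N (1 + 3ε) + 1) Rs k z U V`.
PROOF. Exchange the sums (`Rs` is a sum of nonnegative terms over the `r ≤ ⌊V⌋` with the condition `(1-ε) Y t ≤ r`, and `r ≤ (2+ε) Y t` from the range; every such `r` satisfies `U ≤ r ≤ V` as `Y` is increasing). For a fixed `r > 0` the number of `t` with `(1-ε) Y t ≤ r ≤ (2+ε) Y t`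
is `≤ N (1+3ε) + 1`: for two such `t ≤ t'`: `(1-ε) 2^(t'/N) c ≤ r ≤ (2+ε) 2^(t/N) c`, so `2^((t'-t)/N) ≤ (2+ε)/(1-ε) ≤ 2^(1+3ε)`, `t' - t ≤ N (1+3ε)`; the last inequality: `(2+ε)/(1-ε) = 2 (1+ε/2)/(1-ε) ≤ 2 (1 + 2ε)` for `ε ≤ 1/10`
(`1 + ε/2 ≤ (1-ε)(1+2ε) = 1 + ε - 2ε²` as `2ε² ≤ ε/2`), and `2^(3ε) ≥ 1 + 3ε log 2 ≥ 1 + 2ε` (`Real.add_one_le_exp`, `log 2 > 0.69`). A set of naturals with all differences `≤ D` has at most `D + 1` elements (it lies in `Icc t0 (t0 + ⌊D⌋)`, `t0` the least).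
-/

set_option autoImplicit false

namespace H71.DF

open Finset H96.DR H23.LP

private theorem ovl_pow (ε : ℝ) (hε : 0 < ε) (hε1 : ε ≤ 1 / 10) :
    2 + ε ≤ (1 - ε) * (2 : ℝ) ^ (1 + 3 * ε) := by
  have h1 : (2 : ℝ) ^ (1 + 3 * ε) = 2 * (2 : ℝ) ^ (3 * ε) := by
    rw [Real.rpow_add (by norm_num), Real.rpow_one]
  have h2 : 1 + 2 * ε ≤ (2 : ℝ) ^ (3 * ε) := by
    rw [Real.rpow_def_of_pos (by norm_num)]
    have h3 := Real.add_one_le_exp (Real.log 2 * (3 * ε))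
    have h4 := Real.log_two_gt_d9
    have h5 : 2 * ε ≤ Real.log 2 * (3 * ε) := by nlinarith
    linarith
  rw [h1]
  have h3 : 0 < 1 - ε := by linarith
  have h4 : (1 - ε) * (2 * (1 + 2 * ε)) ≤ (1 - ε) * (2 * (2 : ℝ) ^ (3 * ε)) :=
    mul_le_mul_of_nonneg_left (by linarith) h3.le
  nlinarith

private theorem ovl_diff (c ε r : ℝ) (N : ℕ) (hN : 1 ≤ N) (hc : 0 < c) (hε : 0 < ε) (hε1 : ε ≤ 1 / 10) (t t' : ℕ)
    (h1 : (1 - ε) * ((2 : ℝ) ^ ((t' : ℝ) / N) * c) ≤ r) (h2 : r ≤ (2 + ε) * ((2 : ℝ) ^ ((t : ℝ) / N) * c)) :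
    (t' : ℝ) - t ≤ N * (1 + 3 * ε) := by
  have hN0 : (0 : ℝ) < N := by exact_mod_cast hN
  have h3 : (1 - ε) * ((2 : ℝ) ^ ((t' : ℝ) / N)) ≤ (2 + ε) * (2 : ℝ) ^ ((t : ℝ) / N) := by
    have h4 := h1.trans h2
    rw [← mul_assoc, ← mul_assoc] at h4
    exact le_of_mul_le_mul_right h4 hc
  have h5 := ovl_pow ε hε hε1
  have h6 : (2 + ε) * (2 : ℝ) ^ ((t : ℝ) / N) ≤ (1 - ε) * (2 : ℝ) ^ (1 + 3 * ε) * (2 : ℝ) ^ ((t : ℝ) / N) :=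
    mul_le_mul_of_nonneg_right h5 (Real.rpow_nonneg (by norm_num) _)
  have h7 : (1 - ε) * ((2 : ℝ) ^ ((t' : ℝ) / N)) ≤ (1 - ε) * ((2 : ℝ) ^ (1 + 3 * ε + (t : ℝ) / N)) := by
    rw [Real.rpow_add (by norm_num : (0 : ℝ) < 2) (1 + 3 * ε), ← mul_assoc]
    exact h3.trans h6
  have h8 : (2 : ℝ) ^ ((t' : ℝ) / N) ≤ (2 : ℝ) ^ (1 + 3 * ε + (t : ℝ) / N) :=
    le_of_mul_le_mul_left h7 (by linarith)
  have h9 : (t' : ℝ) / N ≤ 1 + 3 * ε + (t : ℝ) / N :=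
    (Real.rpow_le_rpow_left_iff (by norm_num : (1 : ℝ) < 2)).1 h8
  have h10 : ((t' : ℝ) - t) / N ≤ 1 + 3 * ε := by
    rw [sub_div]
    linarith
  rw [div_le_iff₀ hN0] at h10
  linarith

private theorem ovl_cnt (c ε r : ℝ) (N T : ℕ) (hN : 1 ≤ N) (hc : 0 < c) (hε : 0 < ε) (hε1 : ε ≤ 1 / 10)
    (A : Finset ℕ) (hA : ∀ t ∈ A, (1 - ε) * ((2 : ℝ) ^ ((t : ℝ) / N) * c) ≤ r ∧
      r ≤ (2 + ε) * ((2 : ℝ) ^ ((t : ℝ) / N) * c)) :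
    (A.card : ℝ) ≤ N * (1 + 3 * ε) + 1 := by
  have hD : (0 : ℝ) ≤ N * (1 + 3 * ε) := by positivity
  rcases A.eq_empty_or_nonempty with h | h
  · rw [h, card_empty, Nat.cast_zero]
    linarith
  · obtain ⟨t0, ht0, hmin⟩ := A.exists_min_image id h
    have hsub : A ⊆ Icc t0 (t0 + ⌊(N : ℝ) * (1 + 3 * ε)⌋₊) := by
      intro t ht
      have h1 : t0 ≤ t := hmin t ht
      have h2 := ovl_diff c ε r N hN hc hε hε1 t0 t (hA t ht).1 (hA t0 ht0).2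
      rw [mem_Icc]
      refine ⟨h1, ?_⟩
      have h3 : t - t0 ≤ ⌊(N : ℝ) * (1 + 3 * ε)⌋₊ := by
        apply Nat.le_floor
        rw [Nat.cast_sub h1]
        exact h2
      omega
    have h1 := card_le_card hsub
    rw [Nat.card_Icc] at h1
    have h2 : A.card ≤ ⌊(N : ℝ) * (1 + 3 * ε)⌋₊ + 1 := by omega
    have h3 : (A.card : ℝ) ≤ (⌊(N : ℝ) * (1 + 3 * ε)⌋₊ : ℝ) + 1 := by exact_mod_cast h2
    have h4 := Nat.floor_le hD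
    linarith

theorem ovl (k : ℤ) (z U V c ε : ℝ) (N T : ℕ) (hN : 1 ≤ N) (hc : 0 < c) (hε : 0 < ε) (hε1 : ε ≤ 1 / 10)
    (hU : U ≤ (1 - ε) * ((2 : ℝ) ^ ((1 : ℝ) / N) * c)) (hV : (2 + ε) * ((2 : ℝ) ^ ((T : ℝ) / N) * c) ≤ V) :
    ∑ t ∈ Icc 1 T, Rs k z ((1 - ε) * ((2 : ℝ) ^ ((t : ℝ) / N) * c)) ((2 + ε) * ((2 : ℝ) ^ ((t : ℝ) / N) * c)) ≤
      (N * (1 + 3 * ε) + 1) * Rs k z U V := by
  classical
  have hN0 : (0 : ℝ) < N := by exact_mod_cast hN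
  have hf : ∀ r : ℕ, (0 : ℝ) ≤ (rho k r : ℝ) / (r : ℝ) := fun r => by positivity
  have hmono : ∀ t t' : ℕ, t ≤ t' → (2 : ℝ) ^ ((t : ℝ) / N) * c ≤ (2 : ℝ) ^ ((t' : ℝ) / N) * c := by
    intro t t' h
    refine mul_le_mul_of_nonneg_right ?_ hc.le
    refine Real.rpow_le_rpow_of_exponent_le (by norm_num) ?_
    exact div_le_div_of_nonneg_right (by exact_mod_cast h) hN0.le
  have step : ∀ t ∈ Icc 1 T, Rs k z ((1 - ε) * ((2 : ℝ) ^ ((t : ℝ) / N) * c))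
      ((2 + ε) * ((2 : ℝ) ^ ((t : ℝ) / N) * c)) ≤
      ∑ r ∈ (range (⌊V⌋₊ + 1)).filter fun r : ℕ => U ≤ (r : ℝ) ∧ Rough z r,
        (if (1 - ε) * ((2 : ℝ) ^ ((t : ℝ) / N) * c) ≤ (r : ℝ) ∧
          (r : ℝ) ≤ (2 + ε) * ((2 : ℝ) ^ ((t : ℝ) / N) * c) then (rho k r : ℝ) / (r : ℝ) else 0) := by
    intro t ht
    rw [mem_Icc] at ht
    have hp : 0 < (2 : ℝ) ^ ((t : ℝ) / N) * c := mul_pos (Real.rpow_pos_of_pos (by norm_num) _) hc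
    rw [← sum_filter, filter_filter]
    unfold Rs
    refine sum_le_sum_of_subset_of_nonneg ?_ fun r _ _ => hf r
    intro r hr
    rw [mem_filter, mem_range] at hr ⊢
    obtain ⟨h1, h2, h3⟩ := hr
    have h4 : (r : ℝ) ≤ (2 + ε) * ((2 : ℝ) ^ ((t : ℝ) / N) * c) := by
      have h5 : r ≤ ⌊(2 + ε) * ((2 : ℝ) ^ ((t : ℝ) / N) * c)⌋₊ := by omega
      exact (Nat.le_floor_iff (by positivity)).1 h5
    have h6 : (r : ℝ) ≤ V := h4.trans ((mul_le_mul_of_nonneg_left (hmono t T ht.2) (by linarith)).trans hV)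
    have h7 : U ≤ (r : ℝ) := by
      refine hU.trans (le_trans ?_ h2)
      refine mul_le_mul_of_nonneg_left ?_ (by linarith)
      have h8 := hmono 1 t ht.1
      rw [Nat.cast_one] at h8
      exact h8
    refine ⟨?_, ⟨h7, h3⟩, h2, h4⟩
    have h9 : r ≤ ⌊V⌋₊ := Nat.le_floor h6
    omega
  refine (sum_le_sum step).trans ?_
  rw [sum_comm]
  unfold Rs
  rw [mul_sum]
  refine sum_le_sum fun r _ => ?_
  rw [← sum_filter, sum_const, nsmul_eq_mul]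
  refine mul_le_mul_of_nonneg_right ?_ (hf r)
  exact ovl_cnt c ε r N T hN hc hε hε1 _ fun t ht => (mem_filter.1 ht).2

end H71.DF
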