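import Pool.Agent.H71.DF.Cpb
import Pool.Agent.H71.DF.Blk

/-!
# [H71 DF PRS] all pairs with `m ≤ x`, `x < p ≤ x^(1+d)`, 60-110 lines

CLAIM `Np k x x (x^(1+d)) ≤ (224 d + η) x` for `x ≥ x0(k, η)`, all `0 < d ≤ 1/500`. WLOG `η ≤ 1`. `blk` with `f w = Np k w x (x^(1+d))`, `g X = Cp k X x (x^(1+d))`, `c = 224 d + η/4`, `I` with `2/2^I ≤ η/4`.
(i) `f w ≤ f X + g X` for `X ≤ w ≤ 2X`: the pairs with `m ≤ X` and those with `m ∈ (X, 2X]` (`Nat` against `Int`: inject `(m, p) ↦ ((m : ℤ), p)`).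
(ii) `g X ≤ c X`: `cpb` with `B = 2^I`, `η/4`. (iii) `f w ≤ 2 w` for `w ≤ x`: for every `m ≤ w` there are at most 2 primes `p > x` with `p ∣ m³ + k`: three of them would give `(x+1)³ ≤ |m³ + k| ≤ x³ + |k|` (`m³ + k ≠ 0` as `k` is not a cube), false for `x ≥ |k|`.
Total: `(224 d + η/4)(x + I) + 2x/2^I + 2 ≤ (224 d + η) x` for `x` large.
-/

set_option autoImplicit false

namespace H71.DF

open Finset H96.DR H23.LP

theorem two_primes (k : ℤ) (hk : ∀ t : ℤ, t ^ 3 ≠ k) (x m : ℕ) (hx : k.natAbs ≤ x) (hx1 : 1 ≤ x) (hm : m ≤ x) (S : Finset ℕ)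
    (hS : ∀ p ∈ S, p.Prime ∧ x < p ∧ (p : ℤ) ∣ (m : ℤ) ^ 3 + k) : S.card ≤ 2 := by
  by_contra hcon
  push Not at hcon
  obtain ⟨T, hT, hTc⟩ := Finset.exists_subset_card_eq (show 3 ≤ S.card by omega)
  have h1 : (∏ p ∈ T, p) ∣ ((m : ℤ) ^ 3 + k).natAbs := by
    refine Finset.prod_primes_dvd _ (fun p hp => (hS p (hT hp)).1.prime) fun p hp => ?_
    exact Int.natCast_dvd.1 (hS p (hT hp)).2.2
  have h2 : ((m : ℤ) ^ 3 + k).natAbs ≠ 0 := by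
    intro h
    have h3 : (m : ℤ) ^ 3 + k = 0 := Int.natAbs_eq_zero.1 h
    apply hk (-(m : ℤ))
    linear_combination -h3
  have h4 := Nat.le_of_dvd (Nat.pos_of_ne_zero h2) h1
  have h5 : (x + 1) ^ 3 ≤ ∏ p ∈ T, p := by
    rw [← hTc, ← Finset.prod_const]
    exact Finset.prod_le_prod (fun _ _ => Nat.zero_le _) fun p hp => (hS p (hT hp)).2.1
  have h6 : ((m : ℤ) ^ 3 + k).natAbs ≤ x ^ 3 + x := by
    refine (Int.natAbs_add_le _ _).trans (Nat.add_le_add ?_ hx)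
    rw [Int.natAbs_pow, Int.natAbs_natCast]
    exact Nat.pow_le_pow_left hm 3
  nlinarith

private theorem prs_split (k : ℤ) (w X : ℕ) (u v : ℝ) (h1 : w ≤ 2 * X) :
    Np k w u v ≤ Np k X u v + Cp k X u v := by
  unfold Np Cp
  obtain ⟨A, hA⟩ : ∃ A : Finset (ℕ × ℕ), A = ((Icc 1 w) ×ˢ range (⌊v⌋₊ + 1)).filter fun x =>
    x.2.Prime ∧ u < x.2 ∧ (x.2 : ℝ) ≤ v ∧ (x.2 : ℤ) ∣ (x.1 : ℤ) ^ 3 + k := ⟨_, rfl⟩
  rw [← hA]
  have h2 : A = (A.filter fun x => x.1 ≤ X) ∪ (A.filter fun x => ¬ x.1 ≤ X) :=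
    (Finset.filter_union_filter_not_eq _ _).symm
  have h3 : (A.filter fun x => x.1 ≤ X).card ≤ (((Icc 1 X) ×ˢ range (⌊v⌋₊ + 1)).filter fun x =>
    x.2.Prime ∧ u < x.2 ∧ (x.2 : ℝ) ≤ v ∧ (x.2 : ℤ) ∣ (x.1 : ℤ) ^ 3 + k).card := by
    refine Finset.card_le_card fun x hx => ?_
    rw [Finset.mem_filter, hA, Finset.mem_filter, Finset.mem_product, Finset.mem_Icc] at hx
    rw [Finset.mem_filter, Finset.mem_product, Finset.mem_Icc]
    exact ⟨⟨⟨hx.1.1.1.1, hx.2⟩, hx.1.1.2⟩, hx.1.2⟩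
  have h4 : (A.filter fun x => ¬ x.1 ≤ X).card ≤ (((Ioc (X : ℤ) (2 * X)) ×ˢ range (⌊v⌋₊ + 1)).filter fun x =>
    x.2.Prime ∧ u < x.2 ∧ (x.2 : ℝ) ≤ v ∧ (x.2 : ℤ) ∣ x.1 ^ 3 + k).card := by
    refine Finset.card_le_card_of_injOn (fun x => ((x.1 : ℤ), x.2)) (fun x hx => ?_) fun x _ y _ h => ?_
    · rw [Finset.mem_coe, Finset.mem_filter, hA, Finset.mem_filter, Finset.mem_product, Finset.mem_Icc] at hx
      rw [Finset.mem_coe, Finset.mem_filter, Finset.mem_product, Finset.mem_Ioc]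
      refine ⟨⟨⟨?_, ?_⟩, hx.1.1.2⟩, hx.1.2⟩
      · show (X : ℤ) < (x.1 : ℤ)
        have := hx.2
        omega
      · show (x.1 : ℤ) ≤ 2 * X
        have := hx.1.1.1.2
        omega
    · obtain ⟨x1, x2⟩ := x
      obtain ⟨y1, y2⟩ := y
      simp only [Prod.mk.injEq, Nat.cast_inj] at h
      exact Prod.ext h.1 h.2
  calc A.card ≤ (A.filter fun x => x.1 ≤ X).card + (A.filter fun x => ¬ x.1 ≤ X).card := by
        conv_lhs => rw [h2]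
        exact Finset.card_union_le _ _
    _ ≤ _ := Nat.add_le_add h3 h4

private theorem prs_triv (k : ℤ) (hk : ∀ t : ℤ, t ^ 3 ≠ k) (x w : ℕ) (hx : k.natAbs ≤ x) (hx1 : 1 ≤ x) (hw : w ≤ x)
    (v : ℝ) : Np k w x v ≤ 2 * w := by
  unfold Np
  have h1 := Finset.card_le_mul_card_image_of_maps_to (f := Prod.fst)
    (s := ((Icc 1 w) ×ˢ range (⌊v⌋₊ + 1)).filter fun y : ℕ × ℕ =>
    y.2.Prime ∧ (x : ℝ) < y.2 ∧ (y.2 : ℝ) ≤ v ∧ (y.2 : ℤ) ∣ (y.1 : ℤ) ^ 3 + k) (t := Icc 1 w) (fun a ha => by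
      rw [Finset.mem_filter, Finset.mem_product] at ha
      exact ha.1.1) 2 (fun b hb => by
      rw [← Finset.card_image_of_injOn (f := Prod.snd)]
      · refine two_primes k hk x b hx hx1 ((Finset.mem_Icc.1 hb).2.trans hw) _ fun p hp => ?_
        obtain ⟨y, hy, rfl⟩ := Finset.mem_image.1 hp
        rw [Finset.mem_filter, Finset.mem_filter] at hy
        obtain ⟨⟨-, h2, h3, -, h5⟩, h6⟩ := hy
        rw [← h6]
        exact ⟨h2, by exact_mod_cast h3, h5⟩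
      · intro y hy z hz hyz
        rw [Finset.mem_coe, Finset.mem_filter] at hy hz
        exact Prod.ext (hy.2.trans hz.2.symm) hyz)
  rwa [Nat.card_Icc, Nat.add_sub_cancel] at h1

theorem prs (k : ℤ) (hk : ∀ t : ℤ, t ^ 3 ≠ k) (hW : Window k) (η : ℝ) (hη : 0 < η) : ∃ x0 : ℕ, ∀ x : ℕ, x0 ≤ x → ∀ d : ℝ, 0 < d → d ≤ 1 / 500 →
    (Np k x x ((x : ℝ) ^ (1 + d)) : ℝ) ≤ (224 * d + η) * x := by
  obtain ⟨I, hI⟩ : ∃ I : ℕ, 2 / (2 : ℝ) ^ I ≤ η / 4 := by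
    obtain ⟨I, hI⟩ := pow_unbounded_of_one_lt (8 / η) (show (1 : ℝ) < 2 by norm_num)
    refine ⟨I, ?_⟩
    rw [div_le_iff₀ (by positivity)]
    rw [div_lt_iff₀ hη] at hI
    linarith
  obtain ⟨x1, hx1⟩ := cpb k hk hW (2 ^ I) (η / 4) (one_le_pow₀ (by norm_num)) (by positivity)
  refine ⟨max x1 (max (max k.natAbs 1) ⌈(4 * (1 + η) * I + 8) / η⌉₊), fun x hx d hd hd1 => ?_⟩
  have ha : x1 ≤ x := (le_max_left _ _).trans hx
  have hb : k.natAbs ≤ x := ((le_max_left _ _).trans ((le_max_left _ _).trans (le_max_right _ _))).trans hx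
  have hc : 1 ≤ x := ((le_max_right _ _).trans ((le_max_left _ _).trans (le_max_right _ _))).trans hx
  have hd2 : (4 * (1 + η) * I + 8) / η ≤ x := (Nat.le_ceil _).trans (by
    exact_mod_cast ((le_max_right _ _).trans (le_max_right _ _)).trans hx)
  rw [div_le_iff₀ hη] at hd2
  have hc0 : 0 ≤ 224 * d + η / 4 := by positivity
  have h1 := blk (fun w => (Np k w x ((x : ℝ) ^ (1 + d)) : ℝ)) (fun X => (Cp k X x ((x : ℝ) ^ (1 + d)) : ℝ))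
    (224 * d + η / 4) hc0 x I hc (fun w X _ hw _ => by exact_mod_cast prs_split k w X _ _ hw)
    (fun X hX hxX => hx1 x X ha hX hxX d hd hd1)
    (fun w hw => by exact_mod_cast prs_triv k hk x w hb hc hw _)
  refine h1.trans ?_
  have hx0 : (0 : ℝ) ≤ x := Nat.cast_nonneg x
  have hI0 : (0 : ℝ) ≤ I := Nat.cast_nonneg I
  have h2 : 2 * ((x : ℝ) / 2 ^ I + 1) ≤ η / 4 * x + 2 := by
    have h3 : 2 * ((x : ℝ) / 2 ^ I + 1) = 2 / 2 ^ I * x + 2 := by ring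
    rw [h3]
    have := mul_le_mul_of_nonneg_right hI hx0
    linarith
  have h4 : (224 * d + η / 4) * I ≤ (1 + η) * I := by
    refine mul_le_mul_of_nonneg_right ?_ hI0
    linarith
  nlinarith

end H71.DF
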