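import Pool.Agent.H71.DF.Def
import Pool.Agent.H23.LP.M1

/-!
# [H71 DF PSS] partial summation: `∑_{z < p ≤ V} ν(p)/p ≤ log (log V/log z) + ε`, 80-140 lines

`R ≥ 1` fixed, `z ≤ V ≤ z^R`, `z ≥ z0(k, R, ε) ≥ 3`. Let `lam = log V/log z ∈ [1, R]`, `L = log lam ≤ log R`. Choose `N ≥ 1` with `N (exp (L/N) - 1) ≤ L + ε/2` for all `L ∈ [0, log R]` (`exp t - 1 ≤ t + t²` for `0 ≤ t ≤ 1`, so `N ≥ log R + 2 (log R)²/ε + 1` is enough),
then `e = ε/(4 N (R + 1))`. Let `μ = lam^(1/N)`, `z_i = z^(μ^i)`, `z_0 = z`, `z_N = V`. `mer1` (`Pool/Agent/H23/LP/M1.lean`) with `e` at `z_i`, `z_{i+1}` (all `≥ z ≥ z0`):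
`∑_{z_i < p ≤ z_{i+1}} ν(p)/p ≤ (1/log z_i) ∑ ν(p) log p/p ≤ (1/log z_i) ((1+e) log z_{i+1} - (1-e) log z_i) = (μ - 1) + e (μ + 1)`. Sum over `i < N`: `≤ N (μ - 1) + N e (μ + 1) ≤ L + ε/2 + N e (R + 1) ≤ L + ε`.
(The primes in `(z, V]` are the disjoint union of those in `(z_i, z_{i+1}]`; or prove by induction on `i` that `∑_{z < p ≤ z_i} ν(p)/p ≤ i ((μ - 1) + e (μ + 1))`.)
-/

set_option autoImplicit false

namespace H71.DF

open Finset H96.DR H23.LP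

private theorem mem_pr {z V : ℝ} {p : ℕ} : p ∈ pr z V ↔ p < ⌊V⌋₊ + 1 ∧ p.Prime ∧ z < p := by
  unfold pr
  rw [mem_filter, mem_range]

private theorem seg (k : ℤ) (e x y : ℝ) (hx : 3 ≤ x) (hxy : x ≤ y)
    (h1 : |∑ p ∈ (Icc 1 ⌊x⌋₊).filter Nat.Prime, (nu k p : ℝ) * Real.log p / p - Real.log x| ≤ e * Real.log x)
    (h2 : |∑ p ∈ (Icc 1 ⌊y⌋₊).filter Nat.Prime, (nu k p : ℝ) * Real.log p / p - Real.log y| ≤ e * Real.log y) :
    (∑ p ∈ pr x y, (nu k p : ℝ) / p) * Real.log x ≤ (1 + e) * Real.log y - (1 - e) * Real.log x := by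
  have hx0 : 0 < x := by linarith
  have hnn : ∀ p : ℕ, 0 ≤ (nu k p : ℝ) * Real.log p / p := fun p => by
    have := Real.log_natCast_nonneg p
    positivity
  have hdisj : Disjoint ((Icc 1 ⌊x⌋₊).filter Nat.Prime) (pr x y) := by
    rw [Finset.disjoint_left]
    intro p hp hp'
    have h3 := (mem_pr.1 hp').2.2
    have h4 := (mem_Icc.1 (mem_filter.1 hp).1).2
    have h5 : (p : ℝ) ≤ x := (Nat.cast_le.2 h4).trans (Nat.floor_le hx0.le)
    linarith
  have hsub : (Icc 1 ⌊x⌋₊).filter Nat.Prime ∪ pr x y ⊆ (Icc 1 ⌊y⌋₊).filter Nat.Prime := by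
    intro p hp
    rcases mem_union.1 hp with hp | hp
    · obtain ⟨h3, h4⟩ := mem_filter.1 hp
      rw [mem_Icc] at h3
      exact mem_filter.2 ⟨mem_Icc.2 ⟨h3.1, h3.2.trans (Nat.floor_le_floor hxy)⟩, h4⟩
    · obtain ⟨h3, h4, -⟩ := mem_pr.1 hp
      exact mem_filter.2 ⟨mem_Icc.2 ⟨h4.one_lt.le, by omega⟩, h4⟩
  have h3 := Finset.sum_le_sum_of_subset_of_nonneg (f := fun p : ℕ => (nu k p : ℝ) * Real.log p / p) hsub
    fun p _ _ => hnn p
  rw [Finset.sum_union hdisj] at h3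
  have h4 : (∑ p ∈ pr x y, (nu k p : ℝ) / p) * Real.log x ≤
      ∑ p ∈ pr x y, (nu k p : ℝ) * Real.log p / p := by
    rw [Finset.sum_mul]
    refine Finset.sum_le_sum fun p hp => ?_
    have h5 : Real.log x ≤ Real.log p := Real.log_le_log hx0 (mem_pr.1 hp).2.2.le
    have h6 : 0 ≤ (nu k p : ℝ) / p := by positivity
    calc (nu k p : ℝ) / p * Real.log x ≤ (nu k p : ℝ) / p * Real.log p := mul_le_mul_of_nonneg_left h5 h6
      _ = (nu k p : ℝ) * Real.log p / p := by ring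
  have h5 := (abs_le.1 h1).1
  have h6 := (abs_le.1 h2).2
  linarith

private theorem exp_le (t : ℝ) (h0 : 0 ≤ t) (h1 : t ≤ 1) : Real.exp t - 1 ≤ t + t ^ 2 := by
  have h := Real.abs_exp_sub_one_sub_id_le (x := t) (by rw [abs_of_nonneg h0]; exact h1)
  have h2 := (abs_le.1 h).2
  linarith

theorem pss (k : ℤ) (hk : ∀ t : ℤ, t ^ 3 ≠ k) (R ε : ℝ) (hR : 1 ≤ R) (hε : 0 < ε) : ∃ z0 : ℝ, 3 ≤ z0 ∧ ∀ z V : ℝ,
    z0 ≤ z → z ≤ V → V ≤ z ^ R → ∑ p ∈ pr z V, (nu k p : ℝ) / p ≤ Real.log (Real.log V / Real.log z) + ε := by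
  have hlR : 0 ≤ Real.log R := Real.log_nonneg hR
  obtain ⟨N, hN⟩ := exists_nat_ge (Real.log R + 2 * (Real.log R) ^ 2 / ε + 1)
  have hq : 0 ≤ 2 * (Real.log R) ^ 2 / ε := by positivity
  have hN1 : (1 : ℝ) ≤ N := by linarith
  have hN0 : (0 : ℝ) < N := by linarith
  obtain ⟨e, he⟩ : ∃ e : ℝ, e = ε / (4 * N * (R + 1)) := ⟨_, rfl⟩
  have he0 : 0 < e := by
    rw [he]
    positivity
  obtain ⟨x0, hx0⟩ := mer1 k hk e he0
  refine ⟨max 3 x0, le_max_left _ _, ?_⟩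
  intro z V hz hzV hV
  have hz3 : 3 ≤ z := (le_max_left _ _).trans hz
  have hzx : x0 ≤ z := (le_max_right _ _).trans hz
  have hz0 : 0 < z := by linarith
  have hV0 : 0 < V := by linarith
  have hlz : 0 < Real.log z := Real.log_pos (by linarith)
  have hlzV : Real.log z ≤ Real.log V := Real.log_le_log hz0 hzV
  obtain ⟨lam, hlam⟩ : ∃ lam : ℝ, lam = Real.log V / Real.log z := ⟨_, rfl⟩
  have hlV : lam * Real.log z = Real.log V := by
    rw [hlam]
    field_simp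
  have hlam1 : 1 ≤ lam := by
    rw [hlam, le_div_iff₀ hlz, one_mul]
    exact hlzV
  have hlamR : lam ≤ R := by
    rw [hlam, div_le_iff₀ hlz]
    have h1 := Real.log_le_log hV0 hV
    rwa [Real.log_rpow hz0] at h1
  obtain ⟨L, hL⟩ : ∃ L : ℝ, L = Real.log lam := ⟨_, rfl⟩
  have hL0 : 0 ≤ L := by
    rw [hL]
    exact Real.log_nonneg hlam1
  have hLR : L ≤ Real.log R := by
    rw [hL]
    exact Real.log_le_log (by linarith) hlamR
  have hLe : Real.exp L = lam := by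
    rw [hL, Real.exp_log (by linarith)]
  obtain ⟨μ, hμ⟩ : ∃ μ : ℝ, μ = Real.exp (L / N) := ⟨_, rfl⟩
  have ht0 : 0 ≤ L / N := by positivity
  have hμ1 : 1 ≤ μ := by
    rw [hμ]
    exact Real.one_le_exp ht0
  have hμR : μ ≤ R := by
    rw [hμ]
    refine le_trans ?_ hlamR
    rw [← hLe]
    exact Real.exp_le_exp.2 (div_le_self hL0 hN1)
  have hμN : μ ^ N = lam := by
    rw [hμ, ← Real.exp_nat_mul, mul_div_cancel₀ _ hN0.ne', hLe]
  have hind : ∀ i : ℕ, ∑ p ∈ pr z (Real.exp (μ ^ i * Real.log z)), (nu k p : ℝ) / p ≤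
      i * ((μ - 1) + e * (μ + 1)) := by
    intro i
    induction i with
    | zero =>
      rw [pow_zero, one_mul, Real.exp_log hz0, Nat.cast_zero, zero_mul]
      refine le_of_eq (Finset.sum_eq_zero fun p hp => ?_)
      obtain ⟨h1, -, h3⟩ := mem_pr.1 hp
      have h4 : (p : ℝ) ≤ z := (Nat.cast_le.2 (by omega : p ≤ ⌊z⌋₊)).trans (Nat.floor_le hz0.le)
      linarith
    | succ i ih =>
      have hμi : 1 ≤ μ ^ i := one_le_pow₀ hμ1
      obtain ⟨u, hu⟩ : ∃ u : ℝ, u = Real.exp (μ ^ i * Real.log z) := ⟨_, rfl⟩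
      obtain ⟨v, hv⟩ : ∃ v : ℝ, v = Real.exp (μ ^ (i + 1) * Real.log z) := ⟨_, rfl⟩
      rw [← hu] at ih
      rw [← hv]
      have hlu : Real.log u = μ ^ i * Real.log z := by rw [hu, Real.log_exp]
      have hlv : Real.log v = μ * Real.log u := by
        rw [hv, Real.log_exp, hlu, pow_succ]
        ring
      have hzu : z ≤ u := by
        rw [hu, ← Real.log_le_iff_le_exp hz0]
        exact le_mul_of_one_le_left hlz.le hμi
      have hlu0 : 0 < Real.log u := by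
        rw [hlu]
        positivity
      have huv : u ≤ v := by
        rw [hu, hv, Real.exp_le_exp]
        exact mul_le_mul_of_nonneg_right (pow_le_pow_right₀ hμ1 (Nat.le_succ i)) hlz.le
      have hseg := seg k e u v (hz3.trans hzu) huv (hx0 u (hzx.trans hzu)) (hx0 v (hzx.trans (hzu.trans huv)))
      have hseg2 : ∑ p ∈ pr u v, (nu k p : ℝ) / p ≤ (μ - 1) + e * (μ + 1) := by
        rw [hlv] at hseg
        have h1 : (∑ p ∈ pr u v, (nu k p : ℝ) / p) * Real.log u ≤ ((μ - 1) + e * (μ + 1)) * Real.log u := by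
          refine hseg.trans (le_of_eq ?_)
          ring
        exact le_of_mul_le_mul_right h1 hlu0
      have hnn : ∀ p : ℕ, 0 ≤ (nu k p : ℝ) / p := fun p => by positivity
      have h1 : ∑ p ∈ (pr z v).filter (fun p : ℕ => (p : ℝ) ≤ u), (nu k p : ℝ) / p ≤ ∑ p ∈ pr z u, (nu k p : ℝ) / p := by
        refine Finset.sum_le_sum_of_subset_of_nonneg ?_ fun p _ _ => hnn p
        intro p hp
        obtain ⟨h2, h3⟩ := mem_filter.1 hp
        obtain ⟨h4, h5, h6⟩ := mem_pr.1 h2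
        exact mem_pr.2 ⟨Nat.lt_succ_of_le (Nat.le_floor h3), h5, h6⟩
      have h2 : ∑ p ∈ (pr z v).filter (fun p : ℕ => ¬ (p : ℝ) ≤ u), (nu k p : ℝ) / p ≤ ∑ p ∈ pr u v, (nu k p : ℝ) / p := by
        refine Finset.sum_le_sum_of_subset_of_nonneg ?_ fun p _ _ => hnn p
        intro p hp
        obtain ⟨h2, h3⟩ := mem_filter.1 hp
        obtain ⟨h4, h5, -⟩ := mem_pr.1 h2
        exact mem_pr.2 ⟨h4, h5, not_le.1 h3⟩
      rw [← Finset.sum_filter_add_sum_filter_not (pr z v) (fun p : ℕ => (p : ℝ) ≤ u)]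
      push_cast
      linarith
  have h1 := hind N
  rw [hμN, hlV, Real.exp_log hV0] at h1
  rw [← hlam, ← hL]
  refine h1.trans ?_
  have h2 : (N : ℝ) * (μ - 1) ≤ L + ε / 2 := by
    have h3 : L / N ≤ 1 := by
      rw [div_le_one hN0]
      linarith
    have h4 := exp_le (L / N) ht0 h3
    rw [← hμ] at h4
    have h5 : (N : ℝ) * (μ - 1) ≤ N * (L / N + (L / N) ^ 2) := mul_le_mul_of_nonneg_left h4 hN0.le
    have h6 : (N : ℝ) * (L / N + (L / N) ^ 2) = L + L ^ 2 / N := by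
      field_simp
    have h7 : L ^ 2 / N ≤ ε / 2 := by
      rw [div_le_iff₀ hN0]
      have h8 : L ^ 2 ≤ (Real.log R) ^ 2 := pow_le_pow_left₀ hL0 hLR 2
      have h9 : 2 * (Real.log R) ^ 2 / ε ≤ N := by linarith
      rw [div_le_iff₀ hε] at h9
      linarith
    linarith
  have h3 : (N : ℝ) * (e * (μ + 1)) ≤ ε / 2 := by
    have h4 : (N : ℝ) * (e * (μ + 1)) ≤ N * (e * (R + 1)) :=
      mul_le_mul_of_nonneg_left (mul_le_mul_of_nonneg_left (by linarith) he0.le) hN0.le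
    have h5 : (N : ℝ) * (e * (R + 1)) = ε / 4 := by
      rw [he]
      have : R + 1 ≠ 0 := by linarith
      field_simp
    linarith
  linarith

end H71.DF
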