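import Pool.Agent.H71.DF.Prs

/-!
# [H71 DF SQD] squares of large primes, 60-110 lines

CLAIM `Nq k x x ≤ η x` for `x ≥ x0(k, η)`. Let `κ = min (η/1000) (1/500)`. A number `m` counted by `Nq k x x` has a prime `p > x`, `p² ∣ m³ + k`: either `p ≤ x^(1+κ)`: there are at most `Np k x x (x^(1+κ)) ≤ (224 κ + η/8) x ≤ (3η/8) x` such `m` (`prs`), or `p > x^(1+κ)`:
`Nq k x (x^(1+κ))`: `blk` with `f w = Nq k w (x^(1+κ)) ≤ w ≤ 2w`, `g X = ` the number of `m ∈ (X, 2X]` with a prime `p > x^(1+κ)`, `p² ∣ m³ + k`; `2X ≤ x + 1` gives `X ≤ x` and `X^(1+κ) ≤ x^(1+κ) < p`, so `SqDiv k` (with `κ`, `ε = η/8`, `X ≥ x/2^I ≥ X0`) gives `g X ≤ (η/8) X`.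
`I` with `2/2^I ≤ η/8`. Total `≤ (3η/8) x + (η/8)(x + I) + (η/8) x + 2 ≤ η x` for `x` large. (`Nat`/`Int`: the `m` of a block as a `Finset ℤ`, image under the cast.)
-/

set_option autoImplicit false

namespace H71.DF

open Finset H96.DR H23.LP

open Classical in
/-- the `m` of a block -/
private noncomputable def Gq (k : ℤ) (X : ℕ) (u : ℝ) : Finset ℤ :=
  (Ioc (X : ℤ) (2 * X)).filter fun m => ∃ p : ℕ, p.Prime ∧ u < p ∧ (p : ℤ) ^ 2 ∣ m ^ 3 + k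

private theorem nq_split (k : ℤ) (w X : ℕ) (u : ℝ) (h1 : w ≤ 2 * X) :
    Nq k w u ≤ Nq k X u + (Gq k X u).card := by
  classical
  unfold Nq Gq
  obtain ⟨A, hA⟩ : ∃ A : Finset ℕ, A = (Icc 1 w).filter fun m : ℕ => ∃ p : ℕ, p.Prime ∧ u < p ∧
    (p : ℤ) ^ 2 ∣ (m : ℤ) ^ 3 + k := ⟨_, rfl⟩
  rw [← hA]
  have h2 : A = (A.filter fun x => x ≤ X) ∪ (A.filter fun x => ¬ x ≤ X) :=
    (Finset.filter_union_filter_not_eq _ _).symm
  have h3 : (A.filter fun x => x ≤ X).card ≤ ((Icc 1 X).filter fun m : ℕ => ∃ p : ℕ, p.Prime ∧ u < p ∧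
    (p : ℤ) ^ 2 ∣ (m : ℤ) ^ 3 + k).card := by
    refine Finset.card_le_card fun x hx => ?_
    rw [Finset.mem_filter, hA, Finset.mem_filter, Finset.mem_Icc] at hx
    rw [Finset.mem_filter, Finset.mem_Icc]
    exact ⟨⟨hx.1.1.1, hx.2⟩, hx.1.2⟩
  have h4 : (A.filter fun x => ¬ x ≤ X).card ≤ ((Ioc (X : ℤ) (2 * X)).filter fun m => ∃ p : ℕ, p.Prime ∧ u < p ∧
    (p : ℤ) ^ 2 ∣ m ^ 3 + k).card := by
    refine Finset.card_le_card_of_injOn (fun x => (x : ℤ)) (fun x hx => ?_) fun x _ y _ h => ?_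
    · rw [Finset.mem_coe, Finset.mem_filter, hA, Finset.mem_filter, Finset.mem_Icc] at hx
      rw [Finset.mem_coe, Finset.mem_filter, Finset.mem_Ioc]
      refine ⟨⟨?_, ?_⟩, hx.1.2⟩
      · show (X : ℤ) < (x : ℤ)
        have := hx.2
        omega
      · show (x : ℤ) ≤ 2 * X
        have := hx.1.1.2
        omega
    · exact Nat.cast_injective h
  calc A.card ≤ (A.filter fun x => x ≤ X).card + (A.filter fun x => ¬ x ≤ X).card := by
        conv_lhs => rw [h2]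
        exact Finset.card_union_le _ _
    _ ≤ _ := Nat.add_le_add h3 h4

private theorem nq_triv (k : ℤ) (w : ℕ) (u : ℝ) : Nq k w u ≤ w := by
  classical
  unfold Nq
  refine (Finset.card_filter_le _ _).trans ?_
  rw [Nat.card_Icc, Nat.add_sub_cancel]

private theorem nq_two (k : ℤ) (x : ℕ) (v : ℝ) : Nq k x x ≤ Np k x x v + Nq k x v := by
  classical
  unfold Nq Np
  obtain ⟨A1, hA1⟩ : ∃ A1 : Finset ℕ, A1 = (((Icc 1 x) ×ˢ range (⌊v⌋₊ + 1)).filter fun y =>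
    y.2.Prime ∧ (x : ℝ) < y.2 ∧ (y.2 : ℝ) ≤ v ∧ (y.2 : ℤ) ∣ (y.1 : ℤ) ^ 3 + k).image Prod.fst := ⟨_, rfl⟩
  have h1 : ((Icc 1 x).filter fun m : ℕ => ∃ p : ℕ, p.Prime ∧ (x : ℝ) < p ∧ (p : ℤ) ^ 2 ∣ (m : ℤ) ^ 3 + k) ⊆
      A1 ∪ ((Icc 1 x).filter fun m : ℕ => ∃ p : ℕ, p.Prime ∧ v < p ∧ (p : ℤ) ^ 2 ∣ (m : ℤ) ^ 3 + k) := by
    intro m hm
    rw [Finset.mem_filter] at hm
    obtain ⟨hm1, p, hp, hxp, hd⟩ := hm
    rw [Finset.mem_union]
    by_cases hpv : v < p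
    · right
      rw [Finset.mem_filter]
      exact ⟨hm1, p, hp, hpv, hd⟩
    · left
      rw [hA1, Finset.mem_image]
      refine ⟨(m, p), ?_, rfl⟩
      rw [Finset.mem_filter, Finset.mem_product, Finset.mem_range]
      refine ⟨⟨hm1, ?_⟩, hp, hxp, not_lt.1 hpv, (dvd_pow_self _ (by norm_num)).trans hd⟩
      exact Nat.lt_succ_of_le (Nat.le_floor (not_lt.1 hpv))
  refine (Finset.card_le_card h1).trans ((Finset.card_union_le _ _).trans (Nat.add_le_add ?_ le_rfl))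
  rw [hA1]
  exact Finset.card_image_le

theorem sqd (k : ℤ) (hk : ∀ t : ℤ, t ^ 3 ≠ k) (hW : Window k) (hS : SqDiv k) (η : ℝ) (hη : 0 < η) : ∃ x0 : ℕ, ∀ x : ℕ, x0 ≤ x →
    (Nq k x x : ℝ) ≤ η * x := by
  classical
  obtain ⟨I, hI⟩ : ∃ I : ℕ, 2 / (2 : ℝ) ^ I ≤ η / 8 := by
    obtain ⟨I, hI⟩ := pow_unbounded_of_one_lt (16 / η) (show (1 : ℝ) < 2 by norm_num)
    refine ⟨I, ?_⟩
    rw [div_le_iff₀ (by positivity)]
    rw [div_lt_iff₀ hη] at hI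
    linarith
  obtain ⟨κ, hκ0, hκ1, hκ2⟩ : ∃ κ : ℝ, 0 < κ ∧ κ ≤ η / 1000 ∧ κ ≤ 1 / 500 :=
    ⟨min (η / 1000) (1 / 500), lt_min (by positivity) (by norm_num), min_le_left _ _, min_le_right _ _⟩
  obtain ⟨x1, hx1⟩ := prs k hk hW (η / 8) (by positivity)
  obtain ⟨X0, hX0⟩ := hS κ (η / 8) hκ0 (by positivity)
  refine ⟨max x1 (max (2 ^ I * X0) (max 1 ⌈(η * I / 8 + 2) / (0.4 * η)⌉₊)), fun x hx => ?_⟩
  have ha : x1 ≤ x := (le_max_left _ _).trans hx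
  have hb : 2 ^ I * X0 ≤ x := ((le_max_left _ _).trans (le_max_right _ _)).trans hx
  have hc : 1 ≤ x := ((le_max_left _ _).trans ((le_max_right _ _).trans (le_max_right _ _))).trans hx
  have hd : (η * I / 8 + 2) / (0.4 * η) ≤ x := (Nat.le_ceil _).trans (by
    exact_mod_cast ((le_max_right _ _).trans ((le_max_right _ _).trans (le_max_right _ _))).trans hx)
  rw [div_le_iff₀ (by positivity)] at hd
  have h1 := hx1 x ha κ hκ0 hκ2
  have h2 := blk (fun w => (Nq k w ((x : ℝ) ^ (1 + κ)) : ℝ)) (fun X => ((Gq k X ((x : ℝ) ^ (1 + κ))).card : ℝ))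
    (η / 8) (by positivity) x I hc (fun w X _ hw _ => by exact_mod_cast nq_split k w X _ hw)
    (fun X hX hxX => by
      have hX1 : X0 ≤ X := by
        have h3 : (2 : ℝ) ^ I * X0 ≤ 2 ^ I * X := le_trans (by exact_mod_cast hb) hxX
        have h4 : (X0 : ℝ) ≤ X := le_of_mul_le_mul_left h3 (by positivity)
        exact_mod_cast h4
      refine hX0 X hX1 _ fun m hm => ?_
      unfold Gq at hm
      rw [Finset.mem_filter] at hm
      obtain ⟨hm1, p, hp, hxp, hd⟩ := hm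
      refine ⟨hm1, p, hp, lt_of_le_of_lt ?_ hxp, hd⟩
      refine Real.rpow_le_rpow (Nat.cast_nonneg X) ?_ (by linarith)
      have : X ≤ x := by omega
      exact_mod_cast this)
    (fun w hw => by
      have h3 := nq_triv k w ((x : ℝ) ^ (1 + κ))
      have h4 : (Nq k w ((x : ℝ) ^ (1 + κ)) : ℝ) ≤ w := by exact_mod_cast h3
      have h5 : (0 : ℝ) ≤ w := Nat.cast_nonneg w
      show (Nq k w ((x : ℝ) ^ (1 + κ)) : ℝ) ≤ 2 * w
      linarith)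
  have h3 : (Nq k x x : ℝ) ≤ Np k x x ((x : ℝ) ^ (1 + κ)) + Nq k x ((x : ℝ) ^ (1 + κ)) := by
    exact_mod_cast nq_two k x ((x : ℝ) ^ (1 + κ))
  have hx0 : (0 : ℝ) ≤ x := Nat.cast_nonneg x
  have h4 : 2 * ((x : ℝ) / 2 ^ I + 1) ≤ η / 8 * x + 2 := by
    have h5 : 2 * ((x : ℝ) / 2 ^ I + 1) = 2 / 2 ^ I * x + 2 := by ring
    rw [h5]
    have := mul_le_mul_of_nonneg_right hI hx0
    linarith
  have h5 : (224 * κ + η / 8) * x ≤ (0.35 * η) * x := by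
    refine mul_le_mul_of_nonneg_right ?_ hx0
    linarith
  have h2' : (Nq k x ((x : ℝ) ^ (1 + κ)) : ℝ) ≤ η / 8 * (x + I) + 2 * (x / 2 ^ I + 1) := h2
  nlinarith

end H71.DF
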