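import Pool.Agent.H71.DF.Pss
import Pool.Agent.H71.DF.Nsq

/-!
# [H71 DF SQF] the squarefree rough numbers, 60-110 lines

`∑_{s ≤ V squarefree, z-rough} rho k s/s ≤ ∏_{z < p ≤ V} (1 + nu k p/p) ≤ exp (∑_{z < p ≤ V} nu k p/p) ≤ (log V/log z) exp ε' = (1 + ε) log V/log z`, `ε' = log (1 + ε)` (`pss`).
First inequality: `∏_{p ∈ pr z V} (1 + f p) = ∑_{S ⊆ pr z V} ∏_{p ∈ S} f p` (`Finset.prod_one_add` or `prod_add`, `f p = nu k p/p`); the map `s ↦ s.primeFactors` from the `s` to the subsets of `pr z V` is injective on squarefree numbers (`Nat.prod_primeFactors_of_squarefree`), and `rho k s/s ≤ ∏_{p ∣ s} f p`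
(`rho_sqf`). Second: `1 + t ≤ exp t`. For `z0`: the maximum of `pss` and `3|k| + 3`.
-/

set_option autoImplicit false

namespace H71.DF

open Finset H96.DR H23.LP

open Classical in
theorem sqf (k : ℤ) (hk : ∀ t : ℤ, t ^ 3 ≠ k) (R ε : ℝ) (hR : 1 ≤ R) (hε : 0 < ε) : ∃ z0 : ℝ, 3 ≤ z0 ∧ ∀ z V : ℝ,
    z0 ≤ z → z ≤ V → V ≤ z ^ R →
    ∑ s ∈ (Icc 1 ⌊V⌋₊).filter (fun s : ℕ => Rough z s ∧ Squarefree s), (rho k s : ℝ) / s ≤
      (1 + ε) * (Real.log V / Real.log z) := by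
  obtain ⟨z0, hz0, h⟩ := pss k hk R (Real.log (1 + ε)) hR (Real.log_pos (by linarith))
  refine ⟨z0, hz0, fun z V hz hzV hVR => ?_⟩
  have h1 := h z V hz hzV hVR
  set T := (Icc 1 ⌊V⌋₊).filter (fun s : ℕ => Rough z s ∧ Squarefree s) with hT
  have hV1 : 1 ≤ V := by linarith
  have hTm : ∀ r ∈ T, 1 ≤ r ∧ r ≤ ⌊V⌋₊ ∧ Rough z r ∧ Squarefree r := by
    intro r hr
    rw [hT, mem_filter, mem_Icc] at hr
    exact ⟨hr.1.1, hr.1.2, hr.2.1, hr.2.2⟩
  have h2 : ∀ s ∈ T, (rho k s : ℝ) / s ≤ ∏ p ∈ s.primeFactors, ((nu k p : ℝ) / p) := by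
    intro s hs
    obtain ⟨h3, -, -, h4⟩ := hTm s hs
    have h5 : (rho k s : ℝ) ≤ ∏ p ∈ s.primeFactors, (nu k p : ℝ) := by
      have h6 : ((rho k s : ℕ) : ℝ) ≤ ((∏ p ∈ s.primeFactors, nu k p : ℕ) : ℝ) := Nat.cast_le.2 (rho_sqf k s h4)
      rwa [Nat.cast_prod] at h6
    have h7 : ((∏ p ∈ s.primeFactors, p : ℕ) : ℝ) = s := by
      rw [Nat.prod_primeFactors_of_squarefree h4]
    rw [Nat.cast_prod] at h7
    rw [prod_div_distrib, h7]
    gcongr
  have hinj : Set.InjOn (fun s : ℕ => s.primeFactors) (T : Set ℕ) := by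
    intro s hs t ht h3
    have h4 := Nat.prod_primeFactors_of_squarefree (hTm s hs).2.2.2
    have h5 := Nat.prod_primeFactors_of_squarefree (hTm t ht).2.2.2
    rw [← h4, ← h5]
    simp only at h3
    rw [h3]
  have h3 : ∑ s ∈ T, ∏ p ∈ s.primeFactors, ((nu k p : ℝ) / p) ≤
      ∏ p ∈ pr z V, (1 + (nu k p : ℝ) / p) := by
    rw [prod_one_add]
    calc ∑ s ∈ T, ∏ p ∈ s.primeFactors, ((nu k p : ℝ) / p)
        = ∑ S ∈ T.image (fun s : ℕ => s.primeFactors), ∏ p ∈ S, ((nu k p : ℝ) / p) :=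
          (sum_image (f := fun S : Finset ℕ => ∏ p ∈ S, ((nu k p : ℝ) / p)) hinj).symm
      _ ≤ ∑ S ∈ (pr z V).powerset, ∏ p ∈ S, ((nu k p : ℝ) / p) := by
          refine sum_le_sum_of_subset_of_nonneg ?_ fun x _ _ => prod_nonneg fun _ _ => by positivity
          intro S hS
          obtain ⟨s, hs, rfl⟩ := mem_image.1 hS
          obtain ⟨h4, h5, h6, h7⟩ := hTm s hs
          rw [mem_powerset]
          intro p hp
          have hpp := Nat.prime_of_mem_primeFactors hp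
          have hpd := Nat.dvd_of_mem_primeFactors hp
          unfold pr
          rw [mem_filter, mem_range]
          have h8 := Nat.le_of_dvd (by omega) hpd
          exact ⟨by omega, hpp, h6 p hpp hpd⟩
  have h4 : ∏ p ∈ pr z V, (1 + (nu k p : ℝ) / p) ≤ Real.exp (∑ p ∈ pr z V, (nu k p : ℝ) / p) := by
    rw [Real.exp_sum]
    refine prod_le_prod (fun _ _ => by positivity) fun p _ => ?_
    rw [add_comm]
    exact Real.add_one_le_exp _
  have hlz : 0 < Real.log z := Real.log_pos (by linarith)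
  have hlV : 0 < Real.log V := Real.log_pos (by linarith)
  calc ∑ s ∈ T, (rho k s : ℝ) / s ≤ ∑ s ∈ T, ∏ p ∈ s.primeFactors, ((nu k p : ℝ) / p) := sum_le_sum h2
    _ ≤ ∏ p ∈ pr z V, (1 + (nu k p : ℝ) / p) := h3
    _ ≤ Real.exp (∑ p ∈ pr z V, (nu k p : ℝ) / p) := h4
    _ ≤ Real.exp (Real.log (Real.log V / Real.log z) + Real.log (1 + ε)) := Real.exp_le_exp.2 h1
    _ = (1 + ε) * (Real.log V / Real.log z) := by
        rw [Real.exp_add, Real.exp_log (div_pos hlV hlz), Real.exp_log (by linarith), mul_comm]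

end H71.DF
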