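import Pool.Agent.H71.DF.Ovl

/-!
# [H71 DF WIN] pairs with `u < p ≤ v`, 100-160 lines

`2X ≤ u + 1`, `u ≤ v`, `2v ≤ X^1.00201`, `X ≥ X0(k, η)`. CLAIM `Cp k X u v ≤ 1.07 X Rs k (X^0.0048) (u/3) (5v) + η X`. WLOG `η ≤ 1/10`. Let `N = 1000`, `ε = min (η/4) (1/10000)`, `L` the least natural number `≥ 1` with `v ≤ 2^(L-1) u`, `T = N L`, `Y t = 2^(t/N) (u/2)`.
(1) For every `i ∈ {1..N}` the windows `(Y (N l + i), 2 Y (N l + i)]`, `l < L`, cover `(u, v]` (`2 Y (N l + i) = Y (N (l+1) + i)`, `Y i ≤ u`, `Y (N L + i) = 2^(L-1) 2^(i/N) u ≥ v`), so `Cp k X u v ≤ ∑_{l < L} Sw k X (Y (N l + i))`. Sum over `i`: `N Cp ≤ ∑_{t ∈ Icc 1 T} Sw k X (Y t)`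
(`t ↔ (l, i)`).
(2) `Window` with `ε` for every `t`: `X ≤ Y t` (`Y t ≥ 2^(1/1000) u/2 ≥ 2^(1/1000) (2X - 1)/2 ≥ X` for `X ≥ 2000`) and `Y t ≤ 2^(L-1) u ≤ 2v ≤ X^1.00201` (if `L ≥ 2` then `2^(L-2) u < v`; if `L = 1`: `Y t ≤ u ≤ v`).
`∑_t Sw ≤ 1.06 X ∑_t Rs(..) + T ε X/log X`. `ovl` with `c = u/2`, `U = u/3`, `V = 5v` (`(2+ε) Y T = (2+ε) 2^(L-1) u ≤ (2+ε) 2v ≤ 5v`, `(1-ε) 2^(1/N) u/2 ≥ u/3`): `∑_t Rs ≤ (N (1+3ε) + 1) Rs k z (u/3) (5v)`.
(3) Divide by `N`: `Cp ≤ 1.06 (1 + 3ε + 1/1000) X Rs + L ε X/log X`, `1.06 (1 + 0.0003 + 0.001) ≤ 1.07`; `L ≤ 2 + log (v/u)/log 2 ≤ 2 + 1.5 · 1.01 log X ≤ 4 log X` (`v/u ≤ v ≤ X^1.00201`, `u ≥ 1`), so `L ε/log X ≤ 4ε ≤ η`.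
-/

set_option autoImplicit false

namespace H71.DF

open Finset H96.DR H23.LP

private theorem win_range (f : ℕ → ℝ) (T : ℕ) : ∑ t ∈ Icc 1 T, f t = ∑ i ∈ range T, f (i + 1) := by
  induction T with
  | zero => simp
  | succ n ih => rw [sum_Icc_succ_top (by omega), ih, sum_range_succ]

private theorem win_blocks (f : ℕ → ℝ) (N L : ℕ) :
    ∑ t ∈ Icc 1 (N * L), f t = ∑ i ∈ Icc 1 N, ∑ l ∈ range L, f (N * l + i) := by
  induction L with
  | zero => simp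
  | succ L ih =>
    have h1 : ∑ i ∈ Icc 1 N, ∑ l ∈ range (L + 1), f (N * l + i) =
        ∑ i ∈ Icc 1 N, ∑ l ∈ range L, f (N * l + i) + ∑ i ∈ Icc 1 N, f (N * L + i) := by
      rw [← sum_add_distrib]
      exact sum_congr rfl fun i _ => sum_range_succ _ _
    rw [h1, ← ih, win_range f (N * (L + 1)), Nat.mul_succ, sum_range_add, ← win_range f (N * L),
      win_range (fun i => f (N * L + i)) N]
    rfl

private theorem win_Y (u : ℝ) (N l i : ℕ) (hN : 1 ≤ N) :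
    (2 : ℝ) ^ (((N * l + i : ℕ) : ℝ) / N) * (u / 2) = 2 ^ l * ((2 : ℝ) ^ ((i : ℝ) / N) * (u / 2)) := by
  have hN0 : (N : ℝ) ≠ 0 := by
    have : (1 : ℝ) ≤ N := by exact_mod_cast hN
    linarith
  have h1 : ((N * l + i : ℕ) : ℝ) / N = l + (i : ℝ) / N := by
    push_cast
    field_simp
  rw [h1, Real.rpow_add (by norm_num), Real.rpow_natCast]
  ring

private theorem win_cover (k : ℤ) (X : ℕ) (u v : ℝ) (N n i : ℕ) (hN : 1 ≤ N) (hi : i ≤ N) (hu : 0 < u)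
    (hn : v ≤ 2 ^ n * u) :
    Cp k X u v ≤ ∑ l ∈ range (n + 1), Sw k X ((2 : ℝ) ^ (((N * l + i : ℕ) : ℝ) / N) * (u / 2)) := by
  classical
  have hN1 : (1 : ℝ) ≤ N := by exact_mod_cast hN
  obtain ⟨a, ha⟩ : ∃ a : ℝ, a = (2 : ℝ) ^ ((i : ℝ) / N) * (u / 2) := ⟨_, rfl⟩
  have hin : (i : ℝ) / N ≤ 1 := by
    rw [div_le_one (by linarith)]
    exact_mod_cast hi
  have h2 : (2 : ℝ) ^ ((i : ℝ) / N) ≤ 2 := by
    calc (2 : ℝ) ^ ((i : ℝ) / N) ≤ (2 : ℝ) ^ (1 : ℝ) := Real.rpow_le_rpow_of_exponent_le (by norm_num) hin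
      _ = 2 := Real.rpow_one _
  have h1 : 1 ≤ (2 : ℝ) ^ ((i : ℝ) / N) := Real.one_le_rpow (by norm_num) (by positivity)
  have hau : a ≤ u := by
    rw [ha]
    nlinarith
  have ha0 : u / 2 ≤ a := by
    rw [ha]
    nlinarith
  simp_rw [win_Y u N _ i hN, ← ha]
  unfold Cp Sw
  refine (card_le_card ?_).trans card_biUnion_le
  intro x hx
  rw [mem_filter, mem_product, mem_range] at hx
  obtain ⟨⟨hx1, hx2⟩, hp, hup, hpv, hd⟩ := hx
  have hex : ∃ l : ℕ, (x.2 : ℝ) ≤ 2 * (2 ^ l * a) := ⟨n, by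
    have h3 : (2 : ℝ) ^ n * (u / 2) ≤ 2 ^ n * a := mul_le_mul_of_nonneg_left ha0 (by positivity)
    linarith⟩
  have hfle : Nat.find hex ≤ n := Nat.find_min' hex (by
    have h3 : (2 : ℝ) ^ n * (u / 2) ≤ 2 ^ n * a := mul_le_mul_of_nonneg_left ha0 (by positivity)
    linarith)
  rw [mem_biUnion]
  refine ⟨Nat.find hex, mem_range.2 (by omega), ?_⟩
  have hf := Nat.find_spec hex
  rw [mem_filter, mem_product, mem_range]
  refine ⟨⟨hx1, ?_⟩, hp, ?_, hf, hd⟩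
  · have := Nat.le_floor hf
    omega
  · rcases Nat.eq_zero_or_pos (Nat.find hex) with h0 | h0
    · rw [h0, pow_zero, one_mul]
      linarith
    · have h3 := Nat.find_min hex (m := Nat.find hex - 1) (by omega)
      push Not at h3
      have h4 : (2 : ℝ) ^ Nat.find hex = 2 * 2 ^ (Nat.find hex - 1) := by
        rw [← pow_succ']
        congr 1
        omega
      rw [h4]
      linarith

theorem win (k : ℤ) (hW : Window k) (η : ℝ) (hη : 0 < η) : ∃ X0 : ℕ, ∀ X : ℕ, X0 ≤ X → ∀ u v : ℝ, 2 * X ≤ u + 1 → u ≤ v →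
    2 * v ≤ (X : ℝ) ^ (1.00201 : ℝ) →
    (Cp k X u v : ℝ) ≤ 1.07 * X * Rs k ((X : ℝ) ^ (0.0048 : ℝ)) (u / 3) (5 * v) + η * X := by
  obtain ⟨ε, hε⟩ : ∃ ε : ℝ, ε = min (η / 4) (1 / 10000) := ⟨_, rfl⟩
  have hε0 : 0 < ε := by rw [hε]; positivity
  have hεη : ε ≤ η / 4 := by rw [hε]; exact min_le_left _ _
  have hε1 : ε ≤ 1 / 10000 := by rw [hε]; exact min_le_right _ _
  obtain ⟨X1, hX1⟩ := hW ε hε0
  refine ⟨max X1 2000, fun X hX u v hXu huv hvX => ?_⟩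
  have hX1' : X1 ≤ X := (le_max_left _ _).trans hX
  have hX2 : 2000 ≤ X := (le_max_right _ _).trans hX
  have hXr : (2000 : ℝ) ≤ X := by exact_mod_cast hX2
  have hu : 1 ≤ u := by linarith
  have hex : ∃ n : ℕ, v ≤ 2 ^ n * u := by
    obtain ⟨n, hn⟩ := pow_unbounded_of_one_lt v (by norm_num : (1 : ℝ) < 2)
    exact ⟨n, hn.le.trans (le_mul_of_one_le_right (by positivity) hu)⟩
  classical
  obtain ⟨n, hn⟩ : ∃ n : ℕ, n = Nat.find hex := ⟨_, rfl⟩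
  have hn1 : v ≤ 2 ^ n * u := by rw [hn]; exact Nat.find_spec hex
  have hn2 : n = 0 ∨ (1 ≤ n ∧ 2 ^ (n - 1) * u < v) := by
    rcases Nat.eq_zero_or_pos n with h | h
    · exact Or.inl h
    · right
      refine ⟨h, ?_⟩
      have h3 := Nat.find_min hex (m := n - 1) (by omega)
      push Not at h3
      exact h3
  have hn3 : 2 ^ n * u ≤ 2 * v := by
    rcases hn2 with h | ⟨h, h1⟩
    · rw [h, pow_zero, one_mul]
      linarith
    · have h4 : (2 : ℝ) ^ n = 2 * 2 ^ (n - 1) := by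
        rw [← pow_succ']
        congr 1
        omega
      rw [h4]
      linarith
  have hlogX : 1 ≤ Real.log X := by
    rw [Real.le_log_iff_exp_le (by linarith)]
    have := Real.exp_one_lt_d9
    linarith
  have hlog2 : 0.69 < Real.log 2 := by
    have := Real.log_two_gt_d9
    linarith
  have hL : ((n + 1 : ℕ) : ℝ) ≤ 4 * Real.log X := by
    push_cast
    rcases hn2 with h | ⟨h, h1⟩
    · rw [h]
      push_cast
      linarith
    · have h4 : (2 : ℝ) ^ n = 2 * 2 ^ (n - 1) := by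
        rw [← pow_succ']
        congr 1
        omega
      have h5 : (2 : ℝ) ^ n ≤ (X : ℝ) ^ (1.00201 : ℝ) := by
        have h6 : (2 : ℝ) ^ (n - 1) ≤ 2 ^ (n - 1) * u := le_mul_of_one_le_right (by positivity) hu
        rw [h4]
        linarith
      have h6 := Real.log_le_log (by positivity) h5
      rw [Real.log_pow, Real.log_rpow (by linarith)] at h6
      have h7 : (n : ℝ) * 0.69 ≤ n * Real.log 2 := mul_le_mul_of_nonneg_left hlog2.le (Nat.cast_nonneg _)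
      nlinarith
  obtain ⟨z, hz⟩ : ∃ z : ℝ, z = (X : ℝ) ^ (0.0048 : ℝ) := ⟨_, rfl⟩
  rw [← hz]
  have hRs : 0 ≤ Rs k z (u / 3) (5 * v) := by
    unfold Rs
    exact sum_nonneg fun r _ => by positivity
  have hcov : ∀ i ∈ Icc 1 1000, (Cp k X u v : ℝ) ≤
      ∑ l ∈ range (n + 1), (Sw k X ((2 : ℝ) ^ (((1000 * l + i : ℕ) : ℝ) / (1000 : ℕ)) * (u / 2)) : ℝ) := by
    intro i hi
    rw [mem_Icc] at hi
    exact_mod_cast win_cover k X u v 1000 n i (by norm_num) hi.2 (by linarith) hn1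
  have hsum := sum_le_sum hcov
  rw [sum_const, Nat.card_Icc, nsmul_eq_mul,
    ← win_blocks (fun t => (Sw k X ((2 : ℝ) ^ ((t : ℝ) / (1000 : ℕ)) * (u / 2)) : ℝ)) 1000 (n + 1)] at hsum
  have hY1 : (1 : ℝ) + 0.00069 ≤ (2 : ℝ) ^ ((1 : ℝ) / (1000 : ℕ)) := by
    rw [Real.rpow_def_of_pos (by norm_num)]
    have h5 := Real.add_one_le_exp (Real.log 2 * ((1 : ℝ) / (1000 : ℕ)))
    push_cast at h5 ⊢
    linarith
  have hYT : (2 : ℝ) ^ (((1000 * (n + 1) : ℕ) : ℝ) / (1000 : ℕ)) * (u / 2) = 2 ^ n * u := by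
    have h5 := win_Y u 1000 (n + 1) 0 (by norm_num)
    rw [Nat.add_zero] at h5
    rw [h5, Nat.cast_zero, zero_div, Real.rpow_zero, pow_succ]
    ring
  have hwin : ∀ t ∈ Icc 1 (1000 * (n + 1)), (Sw k X ((2 : ℝ) ^ ((t : ℝ) / (1000 : ℕ)) * (u / 2)) : ℝ) ≤
      1.06 * X * Rs k z ((1 - ε) * ((2 : ℝ) ^ ((t : ℝ) / (1000 : ℕ)) * (u / 2)))
        ((2 + ε) * ((2 : ℝ) ^ ((t : ℝ) / (1000 : ℕ)) * (u / 2))) + ε * X / Real.log X := by
    intro t ht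
    rw [mem_Icc] at ht
    rw [hz]
    refine hX1 X hX1' _ ?_ ?_
    · have h5 : (2 : ℝ) ^ ((1 : ℝ) / (1000 : ℕ)) ≤ (2 : ℝ) ^ ((t : ℝ) / (1000 : ℕ)) := by
        refine Real.rpow_le_rpow_of_exponent_le (by norm_num) ?_
        refine div_le_div_of_nonneg_right ?_ (by positivity)
        exact_mod_cast ht.1
      nlinarith
    · refine le_trans ?_ ((hYT.le.trans hn3).trans hvX)
      refine mul_le_mul_of_nonneg_right ?_ (by linarith)
      refine Real.rpow_le_rpow_of_exponent_le (by norm_num) ?_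
      refine div_le_div_of_nonneg_right ?_ (by positivity)
      exact_mod_cast ht.2
  have hsum2 := sum_le_sum hwin
  rw [sum_add_distrib, ← mul_sum, sum_const, Nat.card_Icc, nsmul_eq_mul] at hsum2
  have hov := ovl k z (u / 3) (5 * v) (u / 2) ε 1000 (1000 * (n + 1)) (by norm_num) (by linarith) hε0
    (by linarith) (by
      have h5 : (1 : ℝ) ≤ (2 : ℝ) ^ ((1 : ℝ) / (1000 : ℕ)) := by linarith
      have h6 : u / 2 ≤ (2 : ℝ) ^ ((1 : ℝ) / (1000 : ℕ)) * (u / 2) := le_mul_of_one_le_left (by linarith) h5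
      have h7 : (1 - ε) * (u / 2) ≤ (1 - ε) * ((2 : ℝ) ^ ((1 : ℝ) / (1000 : ℕ)) * (u / 2)) :=
        mul_le_mul_of_nonneg_left h6 (by linarith)
      have h8 : (9999 / 10000 : ℝ) * (u / 2) ≤ (1 - ε) * (u / 2) :=
        mul_le_mul_of_nonneg_right (by linarith) (by linarith)
      linarith) (by
      rw [hYT]
      have h6 : (2 + ε) * (2 ^ n * u) ≤ (2 + ε) * (2 * v) := mul_le_mul_of_nonneg_left hn3 (by linarith)
      have h7 : (2 + ε) * (2 * v) ≤ (5 / 2) * (2 * v) := mul_le_mul_of_nonneg_right (by linarith) (by linarith)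
      linarith)
  have hfin : 1.06 * X * ∑ t ∈ Icc 1 (1000 * (n + 1)), Rs k z ((1 - ε) * ((2 : ℝ) ^ ((t : ℝ) / (1000 : ℕ)) * (u / 2)))
        ((2 + ε) * ((2 : ℝ) ^ ((t : ℝ) / (1000 : ℕ)) * (u / 2))) ≤
      1.06 * X * ((((1000 : ℕ) : ℝ) * (1 + 3 * ε) + 1) * Rs k z (u / 3) (5 * v)) :=
    mul_le_mul_of_nonneg_left hov (by positivity)
  have hL2 : ((1000 * (n + 1) + 1 - 1 : ℕ) : ℝ) * (ε * X / Real.log X) ≤ 1000 * (η * X) := by
    have h5 : ((1000 * (n + 1) + 1 - 1 : ℕ) : ℝ) = 1000 * ((n + 1 : ℕ) : ℝ) := by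
      rw [Nat.add_sub_cancel]
      push_cast
      ring
    rw [h5]
    have h6 : ((n + 1 : ℕ) : ℝ) * (ε * X / Real.log X) ≤ 4 * Real.log X * (ε * X / Real.log X) :=
      mul_le_mul_of_nonneg_right hL (by positivity)
    have h7 : 4 * Real.log X * (ε * X / Real.log X) = 4 * ε * X := by
      field_simp
    have h8 : 4 * ε * X ≤ η * X := mul_le_mul_of_nonneg_right (by linarith) (by positivity)
    nlinarith
  have hc : ((1000 + 1 - 1 : ℕ) : ℝ) = 1000 := by norm_num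
  rw [hc] at hsum
  have hR2 : 0 ≤ X * Rs k z (u / 3) (5 * v) := by positivity
  have hR3 := mul_le_mul_of_nonneg_right hε1 hR2
  push_cast at hfin hsum hsum2 hL2
  linarith

end H71.DF
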